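import Pool.Agent.TH993.WP.J

open MeasureTheory ProbabilityTheory Filter Topology Set
open scoped ENNReal NNReal

namespace Pool.Agent.TH993.WP

variable {d : ℕ}

theorem sum_arm_le (ν : Measure Bool) [IsProbabilityMeasure ν] :
    ∑' r, arm d ν r ≤ aw d ν := by
  calc ∑' r, arm d ν r ≤ ∑' r, ∑ f : Fin d × Bool, th ν f.1 f.2 r :=
        ENNReal.tsum_le_tsum fun r => arm_le_th ν r
    _ = aw d ν := by
        rw [aw, Summable.tsum_finsetSum (fun _ _ => ENNReal.summable)]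

theorem aw_le_sum (ν : Measure Bool) [IsProbabilityMeasure ν] :
    aw d ν ≤ 2 * d * ∑' r, arm d ν r := by
  calc aw d ν ≤ ∑ f : Fin d × Bool, ∑' r, arm d ν r :=
        Finset.sum_le_sum fun f _ => ENNReal.tsum_le_tsum fun r => th_le_arm ν f.1 f.2 r
    _ = 2 * d * ∑' r, arm d ν r := by
        simp only [Finset.sum_const, Finset.card_univ, Fintype.card_prod, Fintype.card_fin,
          Fintype.card_bool, nsmul_eq_mul]
        push_cast
        ring

theorem inMeasure (hd : 3 ≤ d) (ν : Measure Bool) [IsProbabilityMeasure ν]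
    (hfin : aw d ν ≠ ∞) :
    TendstoInMeasure (P d ν) (fun (n : ℕ) ω => (maxW d n ω : ℝ) / (n : ℝ) ^ (d - 1)) atTop
      (fun _ => (aw d ν).toReal) := by
  rw [tendstoInMeasure_iff_norm]
  intro ε hε
  set a : ℝ≥0 := (aw d ν).toNNReal with ha
  have haw : aw d ν = (a : ℝ≥0∞) := (ENNReal.coe_toNNReal hfin).symm
  have ha0 : 0 < a := by
    have := aw_pos (d := d) ν
    have h2 : (0 : ℝ≥0∞) < 2 * (d : ℝ≥0∞) := by
      have : (0 : ℝ≥0∞) < d := by exact_mod_cast (by omega : 0 < d)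
      positivity
    rw [haw] at this
    exact_mod_cast h2.trans_le this
  have ha0' : (0 : ℝ) < a := by exact_mod_cast ha0
  have h1 := lowerW (by omega : 2 ≤ d) ν (Real.toNNReal ((a : ℝ) - ε)) (by
    rw [haw, ENNReal.coe_lt_coe, ← NNReal.coe_lt_coe, Real.coe_toNNReal']
    exact max_lt (by linarith) ha0')
  have h2 := upperW hd ν (Real.toNNReal ((a : ℝ) + ε)) (by
    rw [haw, ENNReal.coe_lt_coe, ← NNReal.coe_lt_coe, Real.coe_toNNReal _ (by positivity)]
    linarith)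
  have h3 := h1.add h2
  rw [add_zero] at h3
  refine tendsto_of_tendsto_of_tendsto_of_le_of_le' tendsto_const_nhds h3
    (Eventually.of_forall fun n => bot_le) ?_
  filter_upwards [eventually_gt_atTop 0] with n hn
  refine le_trans (measure_mono ?_) (measure_union_le _ _)
  intro ω hω
  rw [mem_ofPred_eq, haw, ENNReal.coe_toReal, Real.norm_eq_abs] at hω
  have hp : (0 : ℝ) < (n : ℝ) ^ (d - 1) := by
    have : (0 : ℝ) < n := by exact_mod_cast hn
    positivity
  rcases le_abs.1 hω with h | h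
  · right
    rw [mem_ofPred_eq, Real.coe_toNNReal _ (by positivity)]
    rw [← le_div_iff₀ hp]
    linarith
  · left
    rw [mem_ofPred_eq, ← div_le_iff₀ hp, Real.coe_toNNReal']
    exact le_max_of_le_left (by linarith)

theorem max_is_boundary (hd : 3 ≤ d) (ν : Measure Bool) [IsProbabilityMeasure ν]
    (hfin : aw d ν ≠ ∞) :
    Tendsto (fun n : ℕ => P d ν {ω | maxW d n ω = Nb d n ω}) atTop (𝓝 1) := by
  obtain ⟨k, rfl⟩ : ∃ k, d = k + 3 := ⟨d - 3, by omega⟩
  apply tendsto_one_of_compl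
  have hlt : ((1 : ℝ≥0) : ℝ≥0∞) < aw (k + 3) ν := by
    refine lt_of_lt_of_le ?_ (aw_pos (d := k + 3) ν)
    push_cast
    have : (1 : ℝ≥0∞) < 2 * 3 := by norm_num
    refine this.trans_le ?_
    gcongr
    exact le_add_self
  have h1 := lower (by omega : 2 ≤ k + 3) ν 1 hlt
  have h2 : Tendsto (fun n : ℕ => P (k + 3) ν {ω | ((1 : ℝ≥0) : ℝ) * (n : ℝ) ^ (k + 3 - 1) <
      Nb (k + 3) n ω}ᶜ) atTop (𝓝 0) := by
    have h3 : ∀ n : ℕ, P (k + 3) ν {ω | ((1 : ℝ≥0) : ℝ) * (n : ℝ) ^ (k + 3 - 1) < Nb (k + 3) n ω}ᶜ =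
        1 - P (k + 3) ν {ω | ((1 : ℝ≥0) : ℝ) * (n : ℝ) ^ (k + 3 - 1) < Nb (k + 3) n ω} := by
      intro n
      have mN : Measurable (fun ω : Cfg (k + 3) => (Nb (k + 3) n ω : ℝ)) :=
        measurable_from_top.comp (meas_Nb n)
      exact prob_compl_eq_one_sub (measurableSet_lt measurable_const mN)
    simp only [h3]
    have := ENNReal.Tendsto.sub (tendsto_const_nhds (x := (1 : ℝ≥0∞))) h1 (Or.inl (by simp))
    simpa using this
  have hsum : ∑' r, arm (k + 3) ν r ≠ ∞ := ne_top_of_le_ne_top hfin (sum_arm_le ν)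
  have h3 := h2.add (free_small k ν hsum 1 one_pos)
  rw [add_zero] at h3
  refine tendsto_of_tendsto_of_tendsto_of_le_of_le' tendsto_const_nhds h3
    (Eventually.of_forall fun n => bot_le) ?_
  filter_upwards [eventually_gt_atTop 0] with n hn
  refine le_trans (measure_mono ?_) (measure_union_le _ _)
  intro ω hω
  by_contra hcon
  rw [mem_union, not_or] at hcon
  obtain ⟨c1, c2⟩ := hcon
  rw [mem_compl_iff, not_not, mem_ofPred_eq] at c1
  apply hω
  rw [mem_ofPred_eq]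
  refine le_antisymm ?_ (Nb_le_maxW (by omega) hn ω)
  obtain ⟨x, hx, hm⟩ := maxW_le (d := k + 3) hn ω
  refine hm.trans (max_le le_rfl ?_)
  by_contra h
  rw [not_le] at h
  apply c2
  refine ⟨x, hx, ?_⟩
  have h5 : (n : ℝ) ^ (k + 2) ≤ ((fcl (k + 3) n ω x).ncard : ℝ) := by
    have h6 : (Nb (k + 3) n ω : ℝ) ≤ ((fcl (k + 3) n ω x).ncard : ℝ) := by exact_mod_cast h.le
    have h7 : ((1 : ℝ≥0) : ℝ) * (n : ℝ) ^ (k + 2) < Nb (k + 3) n ω := c1
    rw [NNReal.coe_one, one_mul] at h7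
    linarith
  rw [ENNReal.coe_one, one_mul]
  exact_mod_cast h5

end Pool.Agent.TH993.WP
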