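import Pool.Agent.TH993.WP.B

open MeasureTheory ProbabilityTheory Filter Topology Set
open scoped ENNReal NNReal

namespace Pool.Agent.TH993.WP

variable {d : ℕ}

/-- invariance under adjacency-preserving bijections -/
theorem iso_inv (ν : Measure Bool) [IsProbabilityMeasure ν] (φ : V d ≃ V d)
    (hφ : ∀ a b, Adj (φ a) (φ b) ↔ Adj a b) (S T A B : Set (V d))
    (hS : ∀ z, z ∈ S ↔ φ z ∈ T) (hA : ∀ z, z ∈ A ↔ φ z ∈ B) (x : V d) :
    P d ν {ω | ConnTo ω T B (φ x)} = P d ν {ω | ConnTo ω S A x} := by
  have hinj : Function.Injective (fun e : Sym2 (V d) => e.map φ) :=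
    Sym2.map.injective φ.injective
  have hmap : Measure.map (fun (ω : Cfg d) (e : Sym2 (V d)) => ω (e.map φ)) (P d ν) = P d ν := by
    have := Measure.map_infinitePi_infinitePi_of_inj (P := fun _ : Sym2 (V d) => ν) hinj
    exact this
  have hm : Measurable (fun (ω : Cfg d) (e : Sym2 (V d)) => ω (e.map φ)) :=
    measurable_pi_iff.mpr fun e => measurable_pi_apply _
  conv_rhs => rw [← hmap, Measure.map_apply hm (meas_connTo S A x)]
  congr 1
  ext ω
  have h1 : ∀ a b : V d, Step (fun e => ω (e.map φ)) S a b ↔ Step ω T (φ a) (φ b) := by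
    intro a b
    simp only [Step, hS, hφ, Sym2.map_mk]
  constructor
  · rintro ⟨y, hy, hc⟩
    refine ⟨φ.symm y, (hA _).2 (by simpa using hy), ?_⟩
    have : ∀ y', Conn ω T (φ x) y' → Conn (fun e => ω (e.map φ)) S x (φ.symm y') := by
      intro y' h
      induction h with
      | refl =>
        rw [Equiv.symm_apply_apply]; exact Relation.ReflTransGen.refl
      | tail _ h2 ih => exact ih.tail ((h1 _ _).2 (by simpa using h2))
    exact this y hc
  · rintro ⟨y, hy, hc⟩
    refine ⟨φ y, (hA _).1 hy, ?_⟩
    have : ∀ y', Conn (fun e => ω (e.map φ)) S x y' → Conn ω T (φ x) (φ y') := by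
      intro y' h
      induction h with
      | refl => exact Relation.ReflTransGen.refl
      | tail _ h2 ih => exact ih.tail ((h1 _ _).1 h2)
    exact this y hc

/-- reflection of the coordinate `i` -/
def refl (i : Fin d) : V d ≃ V d where
  toFun x := fun k => (if k = i then -1 else 1) * x k
  invFun x := fun k => (if k = i then -1 else 1) * x k
  left_inv x := by
    funext k; by_cases h : k = i <;> simp [h]
  right_inv x := by
    funext k; by_cases h : k = i <;> simp [h]

theorem refl_adj (i : Fin d) (a b : V d) : Adj (refl i a) (refl i b) ↔ Adj a b := by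
  unfold Adj
  have : ∀ k, |refl i a k - refl i b k| = |a k - b k| := by
    intro k
    have : refl i a k - refl i b k = (if k = i then -1 else 1) * (a k - b k) := by
      simp only [refl, Equiv.coe_fn_mk]; ring
    rw [this, abs_mul]
    by_cases h : k = i <;> simp [h]
  simp only [this]

/-- swap of the coordinates `i` and `j` -/
def swp (i j : Fin d) : V d ≃ V d where
  toFun x := fun k => x (Equiv.swap i j k)
  invFun x := fun k => x (Equiv.swap i j k)
  left_inv x := by
    funext k; simp
  right_inv x := by
    funext k; simp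

theorem swp_adj (i j : Fin d) (a b : V d) : Adj (swp i j a) (swp i j b) ↔ Adj a b := by
  unfold Adj
  simp only [swp, Equiv.coe_fn_mk]
  rw [Equiv.sum_comp (Equiv.swap i j) (fun k => |a k - b k|)]

theorem th_refl (ν : Measure Bool) [IsProbabilityMeasure ν] (i : Fin d) (r : ℕ) :
    th ν i true r = th ν i false r := by
  have h := iso_inv ν (refl i) (refl_adj i) (hs i (sg false) 0) (hs i (sg true) 0) (pl i 0)
    (pl i 0) (fun z => by simp [hs, sg, refl]) (fun z => by simp [pl, refl]) (pt i false r)
  have h2 : refl i (pt i false r) = pt i true r := by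
    funext k
    by_cases hk : k = i
    · subst hk; simp [refl, pt, sg]
    · simp [refl, pt, hk]
  rw [h2] at h
  exact h

theorem th_swp (ν : Measure Bool) [IsProbabilityMeasure ν] (i j : Fin d) (b : Bool) (r : ℕ) :
    th ν j b r = th ν i b r := by
  have h := iso_inv ν (swp i j) (swp_adj i j) (hs i (sg b) 0) (hs j (sg b) 0) (pl i 0)
    (pl j 0) (fun z => by simp [hs, swp]) (fun z => by simp [pl, swp]) (pt i b r)
  have h2 : swp i j (pt i b r) = pt j b r := by
    funext k
    by_cases hk : k = j
    · subst hk; simp [swp, pt]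
    · have : Equiv.swap i j k ≠ i := by
        intro h
        apply hk
        have := congrArg (Equiv.swap i j) h
        simpa using this
      simp [swp, pt, hk, this]
  rw [h2] at h
  exact h

theorem aw_eq (ν : Measure Bool) [IsProbabilityMeasure ν] (i : Fin d) :
    aw d ν = 2 * d * ∑' r, th ν i false r := by
  have h : ∀ (f : Fin d × Bool) (r : ℕ), th ν f.1 f.2 r = th ν i false r := by
    rintro ⟨j, b⟩ r
    rw [th_swp ν i j b r]
    cases b
    · rfl
    · exact th_refl ν i r
  simp only [aw, h, Finset.sum_const, Finset.card_univ, Fintype.card_prod, Fintype.card_fin,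
    Fintype.card_bool, nsmul_eq_mul]
  push_cast
  ring

end Pool.Agent.TH993.WP
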