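import Mathlib

open MeasureTheory ProbabilityTheory Filter Topology Set
open scoped ENNReal NNReal

namespace Pool.Agent.TH993.WP

/-- Points of `ℤ^d`. -/
abbrev V (d : ℕ) := Fin d → ℤ

/-- Nearest neighbours in `ℤ^d`. -/
def Adj {d : ℕ} (x y : V d) : Prop := ∑ i, |x i - y i| = 1

/-- A bond configuration: the state (`true` = open) of every unordered pair of points. Only the
states of nearest-neighbour pairs are ever used. -/
abbrev Cfg (d : ℕ) := Sym2 (V d) → Bool

/-- The bonds are independent and each has law `ν`. -/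
noncomputable def P (d : ℕ) (ν : Measure Bool) : Measure (Cfg d) :=
  Measure.infinitePi (fun _ => ν)

instance (d : ℕ) (ν : Measure Bool) [IsProbabilityMeasure ν] : IsProbabilityMeasure (P d ν) := by
  unfold P; infer_instance

variable {d : ℕ}

/-- `x` and `y` are nearest neighbours in `S` and the bond between them is open. -/
def Step (ω : Cfg d) (S : Set (V d)) (x y : V d) : Prop :=
  x ∈ S ∧ y ∈ S ∧ Adj x y ∧ ω s(x, y) = true

/-- `x` and `y` are joined by an open path in `S`. -/
def Conn (ω : Cfg d) (S : Set (V d)) (x y : V d) : Prop :=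
  Relation.ReflTransGen (Step ω S) x y

/-- `x` is joined to some point of `A` by an open path in `S`. -/
def ConnTo (ω : Cfg d) (S A : Set (V d)) (x : V d) : Prop := ∃ y ∈ A, Conn ω S x y

/-- paths of length `n` -/
def RN (ω : Cfg d) (S : Set (V d)) (x : V d) : ℕ → V d → Prop
  | 0, y => x = y
  | n + 1, y => ∃ z, RN ω S x n z ∧ Step ω S z y

theorem conn_iff (ω : Cfg d) (S : Set (V d)) (x y : V d) :
    Conn ω S x y ↔ ∃ n, RN ω S x n y := by
  constructor
  · intro h
    induction h with
    | refl => exact ⟨0, rfl⟩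
    | tail _ h2 ih => obtain ⟨n, hn⟩ := ih; exact ⟨n + 1, _, hn, h2⟩
  · rintro ⟨n, hn⟩
    induction n generalizing y with
    | zero => cases hn; exact Relation.ReflTransGen.refl
    | succ n ih => obtain ⟨z, hz, hs⟩ := hn; exact (ih z hz).tail hs

theorem meas_step (S : Set (V d)) (x y : V d) : MeasurableSet {ω : Cfg d | Step ω S x y} := by
  have h0 : Measurable (fun ω : Cfg d => ω s(x, y)) := measurable_pi_apply _
  have h : MeasurableSet {ω : Cfg d | ω s(x, y) = true} := h0 (MeasurableSet.singleton true)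
  exact (MeasurableSet.const _).inter ((MeasurableSet.const _).inter ((MeasurableSet.const _).inter h))

theorem meas_RN (S : Set (V d)) (x : V d) (n : ℕ) :
    ∀ y : V d, MeasurableSet {ω : Cfg d | RN ω S x n y} := by
  induction n with
  | zero => intro y; exact MeasurableSet.const _
  | succ n ih =>
    intro y
    have : {ω : Cfg d | RN ω S x (n + 1) y} = ⋃ z, {ω | RN ω S x n z} ∩ {ω | Step ω S z y} := by
      ext ω; simp [RN]
    rw [this]
    exact MeasurableSet.iUnion fun z => (ih z).inter (meas_step S z y)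

theorem meas_conn (S : Set (V d)) (x y : V d) : MeasurableSet {ω : Cfg d | Conn ω S x y} := by
  have : {ω : Cfg d | Conn ω S x y} = ⋃ n, {ω | RN ω S x n y} := by
    ext ω; simp [conn_iff]
  rw [this]
  exact MeasurableSet.iUnion fun n => meas_RN S x n y

theorem meas_connTo (S A : Set (V d)) (x : V d) : MeasurableSet {ω : Cfg d | ConnTo ω S A x} := by
  have : {ω : Cfg d | ConnTo ω S A x} = ⋃ y ∈ A, {ω | Conn ω S x y} := by
    ext ω; simp [ConnTo]
  rw [this]
  exact MeasurableSet.biUnion (Set.to_countable A) fun y _ => meas_conn S x y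

theorem conn_mono {ω : Cfg d} {S T : Set (V d)} (h : S ⊆ T) {x y : V d} (hc : Conn ω S x y) :
    Conn ω T x y :=
  Relation.ReflTransGen.mono (r := Step ω S) (p := Step ω T)
    (fun _ _ hs => ⟨h hs.1, h hs.2.1, hs.2.2⟩) _ _ hc

theorem connTo_mono {ω : Cfg d} {S T A B : Set (V d)} (h : S ⊆ T) (h' : A ⊆ B) {x : V d}
    (hc : ConnTo ω S A x) : ConnTo ω T B x := by
  obtain ⟨y, hy, hc⟩ := hc
  exact ⟨y, h' hy, conn_mono h hc⟩

theorem conn_congr {ω ω' : Cfg d} {S : Set (V d)}
    (h : ∀ x ∈ S, ∀ y ∈ S, ω s(x, y) = ω' s(x, y)) {x y : V d} (hc : Conn ω S x y) :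
    Conn ω' S x y :=
  Relation.ReflTransGen.mono (r := Step ω S) (p := Step ω' S)
    (fun a b hs => ⟨hs.1, hs.2.1, hs.2.2.1, by rw [← h a hs.1 b hs.2.1]; exact hs.2.2.2⟩) _ _ hc

/-- events depending on disjoint finite sets of bonds are independent -/
theorem indep_local (ν : Measure Bool) [IsProbabilityMeasure ν] (I J : Finset (Sym2 (V d)))
    (hIJ : Disjoint I J) (E F : Set (Cfg d)) (hE : MeasurableSet E) (hF : MeasurableSet F)
    (lE : ∀ ω ω' : Cfg d, (∀ e ∈ I, ω e = ω' e) → ω ∈ E → ω' ∈ E)
    (lF : ∀ ω ω' : Cfg d, (∀ e ∈ J, ω e = ω' e) → ω ∈ F → ω' ∈ F) :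
    P d ν (E ∩ F) = P d ν E * P d ν F := by
  classical
  have h1 : iIndepFun (fun (e : Sym2 (V d)) (ω : Cfg d) => ω e) (P d ν) :=
    iIndepFun_infinitePi (P := fun _ : Sym2 (V d) => ν) (X := fun _ b => b) (fun _ => measurable_id)
  have h2 := h1.indepFun_finset I J hIJ (fun e => measurable_pi_apply e)
  let ext (K : Finset (Sym2 (V d))) (η : K → Bool) : Cfg d :=
    fun e => if h : e ∈ K then η ⟨e, h⟩ else false
  have mext : ∀ K, Measurable (ext K) := by
    intro K
    refine measurable_pi_iff.mpr fun e => ?_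
    by_cases h : e ∈ K
    · simp only [ext, h, dif_pos]
      exact measurable_pi_apply _
    · simp only [ext, h, dif_neg, not_false_iff]
      exact measurable_const
  have key : ∀ (K : Finset (Sym2 (V d))) (G : Set (Cfg d)),
      (∀ ω ω' : Cfg d, (∀ e ∈ K, ω e = ω' e) → ω ∈ G → ω' ∈ G) →
      G = (fun ω (i : K) => ω i) ⁻¹' (ext K ⁻¹' G) := by
    intro K G hG
    ext ω
    have hh : ∀ e ∈ K, ω e = ext K (fun i : K => ω i) e := by
      intro e he; simp [ext, he]
    constructor
    · intro h; exact hG _ _ hh h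
    · intro h; exact hG _ _ (fun e he => (hh e he).symm) h
  have := h2.measure_inter_preimage_eq_mul _ _ (mext I hE) (mext J hF)
  rw [← key I E lE, ← key J F lF] at this
  exact this

/-- translation invariance -/
theorem shift_inv (ν : Measure Bool) [IsProbabilityMeasure ν] (v : V d) (S T A B : Set (V d))
    (hS : ∀ z, z ∈ S ↔ z + v ∈ T) (hA : ∀ z, z ∈ A ↔ z + v ∈ B) (x : V d) :
    P d ν {ω | ConnTo ω T B (x + v)} = P d ν {ω | ConnTo ω S A x} := by
  have hinj : Function.Injective (fun e : Sym2 (V d) => e.map (· + v)) :=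
    Sym2.map.injective (add_left_injective v)
  have hmap : Measure.map (fun (ω : Cfg d) (e : Sym2 (V d)) => ω (e.map (· + v))) (P d ν) = P d ν := by
    have := Measure.map_infinitePi_infinitePi_of_inj (P := fun _ : Sym2 (V d) => ν) hinj
    exact this
  have hm : Measurable (fun (ω : Cfg d) (e : Sym2 (V d)) => ω (e.map (· + v))) :=
    measurable_pi_iff.mpr fun e => measurable_pi_apply _
  conv_rhs => rw [← hmap, Measure.map_apply hm (meas_connTo S A x)]
  congr 1
  ext ω
  have hadj : ∀ a b : V d, Adj (a + v) (b + v) ↔ Adj a b := by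
    intro a b; simp [Adj]
  have h1 : ∀ a b : V d, Step (fun e => ω (e.map (· + v))) S a b ↔ Step ω T (a + v) (b + v) := by
    intro a b
    simp only [Step, hS, hadj, Sym2.map_mk]
  constructor
  · rintro ⟨y, hy, hc⟩
    refine ⟨y - v, (hA _).2 (by simpa using hy), ?_⟩
    have : ∀ y', Conn ω T (x + v) y' → Conn (fun e => ω (e.map (· + v))) S x (y' - v) := by
      intro y' h
      induction h with
      | refl =>
        have : x + v - v = x := by simp
        rw [this]; exact Relation.ReflTransGen.refl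
      | tail _ h2 ih => exact ih.tail ((h1 _ _).2 (by simpa using h2))
    exact this y hc
  · rintro ⟨y, hy, hc⟩
    refine ⟨y + v, (hA _).1 hy, ?_⟩
    have : ∀ y', Conn (fun e => ω (e.map (· + v))) S x y' → Conn ω T (x + v) (y' + v) := by
      intro y' h
      induction h with
      | refl => exact Relation.ReflTransGen.refl
      | tail _ h2 ih => exact ih.tail ((h1 _ _).1 h2)
    exact this y hc

end Pool.Agent.TH993.WP
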