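import Pool.Agent.TH993.WP.A

open MeasureTheory ProbabilityTheory Filter Topology Set
open scoped ENNReal NNReal

namespace Pool.Agent.TH993.WP

variable {d : ℕ}

/-- The half-space `σ (x_i - c) ≥ 0`. -/
def hs (i : Fin d) (σ c : ℤ) : Set (V d) := {x | 0 ≤ σ * (x i - c)}

/-- The hyperplane `x_i = c`. -/
def pl (i : Fin d) (c : ℤ) : Set (V d) := {x | x i = c}

/-- The sup-norm ball. -/
def ball (x : V d) (L : ℕ) : Set (V d) := {z | ∀ j, |z j - x j| ≤ (L : ℤ)}

/-- The two sides: `1` (the side `x_i ≥ 0`) and `-1` (the side `x_i ≤ 0`). -/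
def sg (b : Bool) : ℤ := if b then -1 else 1

theorem sg_mul (b : Bool) (t : ℤ) : sg b * (sg b * t) = t := by
  cases b <;> simp [sg]

/-- the point at depth `r` on side `b` of the hyperplane `x_i = 0` -/
def pt (i : Fin d) (b : Bool) (r : ℕ) : V d := Pi.single i (sg b * r)

/-- Half-space connection probability: the point at depth `r` is joined to the bounding hyperplane
by an open path inside the half-space. -/
noncomputable def th (ν : Measure Bool) (i : Fin d) (b : Bool) (r : ℕ) : ℝ≥0∞ :=
  P d ν {ω | ConnTo ω (hs i (sg b) 0) (pl i 0) (pt i b r)}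

/-- the local version -/
noncomputable def thL (ν : Measure Bool) (i : Fin d) (b : Bool) (r L : ℕ) : ℝ≥0∞ :=
  P d ν {ω | ConnTo ω (hs i (sg b) 0 ∩ ball (pt i b r) L) (pl i 0) (pt i b r)}

theorem th_eq (ν : Measure Bool) [IsProbabilityMeasure ν] (i : Fin d) (b : Bool) (r : ℕ) (x : V d)
    (c : ℤ) (hr : sg b * (x i - c) = r) :
    P d ν {ω | ConnTo ω (hs i (sg b) c) (pl i c) x} = th ν i b r := by
  have hv : x i - sg b * r = c := by rw [← hr, sg_mul]; ring
  have h := shift_inv ν (x - pt i b r) (hs i (sg b) 0) (hs i (sg b) c) (pl i 0) (pl i c)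
    (fun z => by
      have : (z + (x - pt i b r)) i - c = z i - 0 := by
        simp only [pt, Pi.add_apply, Pi.sub_apply, Pi.single_eq_same]; linarith
      simp only [hs, mem_ofPred_eq, this])
    (fun z => by
      have : (z + (x - pt i b r)) i = z i + c := by
        simp only [pt, Pi.add_apply, Pi.sub_apply, Pi.single_eq_same]; linarith
      simp only [pl, mem_ofPred_eq, this]; constructor <;> intro h <;> linarith) (pt i b r)
  have hx : pt i b r + (x - pt i b r) = x := by abel
  rw [hx] at h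
  exact h

theorem thL_eq (ν : Measure Bool) [IsProbabilityMeasure ν] (i : Fin d) (b : Bool) (r L : ℕ)
    (x : V d) (c : ℤ) (hr : sg b * (x i - c) = r) :
    P d ν {ω | ConnTo ω (hs i (sg b) c ∩ ball x L) (pl i c) x} = thL ν i b r L := by
  have hv : x i - sg b * r = c := by rw [← hr, sg_mul]; ring
  have h := shift_inv ν (x - pt i b r) (hs i (sg b) 0 ∩ ball (pt i b r) L)
    (hs i (sg b) c ∩ ball x L) (pl i 0) (pl i c)
    (fun z => by
      have : (z + (x - pt i b r)) i - c = z i - 0 := by
        simp only [pt, Pi.add_apply, Pi.sub_apply, Pi.single_eq_same]; linarith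
      have h2 : ∀ j, (z + (x - pt i b r)) j - x j = z j - pt i b r j := by
        intro j; simp only [Pi.add_apply, Pi.sub_apply]; ring
      simp only [hs, ball, mem_inter_iff, mem_ofPred_eq, this, h2])
    (fun z => by
      have : (z + (x - pt i b r)) i = z i + c := by
        simp only [pt, Pi.add_apply, Pi.sub_apply, Pi.single_eq_same]; linarith
      simp only [pl, mem_ofPred_eq, this]; constructor <;> intro h <;> linarith) (pt i b r)
  have hx : pt i b r + (x - pt i b r) = x := by abel
  rw [hx] at h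
  exact h

theorem ball_mono (x : V d) {L M : ℕ} (h : L ≤ M) : ball x L ⊆ ball x M := by
  intro z hz j
  have := hz j
  have h' : (L : ℤ) ≤ M := by exact_mod_cast h
  linarith

theorem conn_local {ω : Cfg d} {S : Set (V d)} {x y : V d} (h : Conn ω S x y) (c : V d) :
    ∃ L, Conn ω (S ∩ ball c L) x y := by
  induction h with
  | refl => exact ⟨0, Relation.ReflTransGen.refl⟩
  | @tail y z _ h2 ih =>
    obtain ⟨L, hL⟩ := ih
    set M : ℕ := L + ∑ j, (y j - c j).natAbs + ∑ j, (z j - c j).natAbs with hM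
    have hb : ∀ w : V d, (∑ j, (w j - c j).natAbs ≤ M) → w ∈ ball c M := by
      intro w hw j
      have h1 : (w j - c j).natAbs ≤ ∑ j, (w j - c j).natAbs :=
        Finset.single_le_sum (f := fun j => (w j - c j).natAbs) (fun _ _ => Nat.zero_le _)
          (Finset.mem_univ j)
      have h2 : ((w j - c j).natAbs : ℤ) ≤ M := by exact_mod_cast h1.trans hw
      rwa [Int.natCast_natAbs] at h2
    refine ⟨M, (conn_mono (inter_subset_inter_right _ (ball_mono c (by omega))) hL).tail ?_⟩
    exact ⟨⟨h2.1, hb y (by omega)⟩, ⟨h2.2.1, hb z (by omega)⟩, h2.2.2⟩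

theorem thL_tendsto (ν : Measure Bool) [IsProbabilityMeasure ν] (i : Fin d) (b : Bool) (r : ℕ) :
    Tendsto (fun L => thL ν i b r L) atTop (𝓝 (th ν i b r)) := by
  have hU : {ω : Cfg d | ConnTo ω (hs i (sg b) 0) (pl i 0) (pt i b r)} =
      ⋃ L : ℕ, {ω | ConnTo ω (hs i (sg b) 0 ∩ ball (pt i b r) L) (pl i 0) (pt i b r)} := by
    ext ω
    simp only [mem_ofPred_eq, mem_iUnion]
    constructor
    · rintro ⟨y, hy, hc⟩
      obtain ⟨L, hL⟩ := conn_local hc (pt i b r)
      exact ⟨L, y, hy, hL⟩
    · rintro ⟨L, h⟩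
      exact connTo_mono inter_subset_left subset_rfl h
  unfold th
  rw [hU]
  refine tendsto_measure_iUnion_atTop ?_
  intro L M h ω hω
  exact connTo_mono (inter_subset_inter_right _ (ball_mono _ h)) subset_rfl hω

/-- The box `B_n = [0, n-1]^d`. -/
noncomputable def bx (d n : ℕ) : Finset (V d) := Fintype.piFinset (fun _ => Finset.Ico 0 (n : ℤ))

/-- Its boundary `∂B_n = B_n ∖ [1, n-2]^d`. -/
def bd (d n : ℕ) : Set (V d) := {x | x ∈ bx d n ∧ ∃ i, x i = 0 ∨ x i = (n : ℤ) - 1}

/-- the level of the face on side `b` -/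
def cl (b : Bool) (n : ℕ) : ℤ := if b then (n : ℤ) - 1 else 0

theorem sum_pi {R : Type*} [CommSemiring R] (s T : Finset ℤ) (i : Fin d) (g : ℤ → R) :
    ∑ x ∈ Fintype.piFinset (fun j => if j = i then T else s), g (x i) =
      (s.card : R) ^ (d - 1) * ∑ t ∈ T, g t := by
  classical
  have h := Finset.prod_univ_sum (fun j : Fin d => if j = i then T else s)
    (fun j t => if j = i then g t else 1)
  have h1 : ∀ x : V d, (∏ j, if j = i then g (x j) else 1) = g (x i) := by
    intro x; simp
  simp only [h1] at h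
  rw [← h, ← Finset.mul_prod_erase Finset.univ _ (Finset.mem_univ i)]
  have h2 : ∀ j ∈ Finset.univ.erase i,
      ∑ t ∈ (if j = i then T else s), (if j = i then g t else 1) = (s.card : R) := by
    intro j hj
    have : j ≠ i := (Finset.mem_erase.1 hj).1
    simp [this]
  rw [Finset.prod_congr rfl h2, Finset.prod_const, Finset.card_erase_of_mem (Finset.mem_univ i)]
  simp [mul_comm]

theorem bx_eq (n : ℕ) (i : Fin d) :
    bx d n = Fintype.piFinset (fun j => if j = i then Finset.Ico 0 (n : ℤ)
      else Finset.Ico 0 (n : ℤ)) := by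
  simp [bx]

/-- the constant of the law of large numbers -/
noncomputable def aw (d : ℕ) (ν : Measure Bool) : ℝ≥0∞ :=
  ∑ f : Fin d × Bool, ∑' r : ℕ, th ν f.1 f.2 r

theorem bd_face {n : ℕ} {ω : Cfg d} {x : V d} (h : ConnTo ω (bx d n : Set (V d)) (bd d n) x) :
    ∃ f : Fin d × Bool, ConnTo ω (hs f.1 (sg f.2) (cl f.2 n)) (pl f.1 (cl f.2 n)) x := by
  obtain ⟨y, hy, hc⟩ := h
  obtain ⟨hyb, i, hi⟩ := hy
  rcases hi with hi | hi
  · refine ⟨(i, false), y, by simpa [pl, cl] using hi, conn_mono ?_ hc⟩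
    intro z hz
    have := (Fintype.mem_piFinset.1 (Finset.mem_coe.1 hz)) i
    simp only [Finset.mem_Ico] at this
    simp only [hs, sg, cl, mem_ofPred_eq]
    simpa using this.1
  · refine ⟨(i, true), y, by simpa [pl, cl] using hi, conn_mono ?_ hc⟩
    intro z hz
    have := (Fintype.mem_piFinset.1 (Finset.mem_coe.1 hz)) i
    simp only [Finset.mem_Ico] at this
    simp only [hs, sg, cl, mem_ofPred_eq, if_true]
    linarith

theorem exp_le (ν : Measure Bool) [IsProbabilityMeasure ν] (n : ℕ) :
    ∑ x ∈ bx d n, P d ν {ω | ConnTo ω (bx d n : Set (V d)) (bd d n) x} ≤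
      (n : ℝ≥0∞) ^ (d - 1) * aw d ν := by
  classical
  have h1 : ∀ x ∈ bx d n, P d ν {ω | ConnTo ω (bx d n : Set (V d)) (bd d n) x} ≤
      ∑ f : Fin d × Bool, th ν f.1 f.2 (sg f.2 * (x f.1 - cl f.2 n)).toNat := by
    intro x hx
    calc P d ν {ω | ConnTo ω (bx d n : Set (V d)) (bd d n) x}
        ≤ P d ν (⋃ f : Fin d × Bool,
            {ω | ConnTo ω (hs f.1 (sg f.2) (cl f.2 n)) (pl f.1 (cl f.2 n)) x}) := by
          apply measure_mono
          intro ω hω
          exact mem_iUnion.2 (bd_face hω)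
      _ ≤ ∑ f : Fin d × Bool,
            P d ν {ω | ConnTo ω (hs f.1 (sg f.2) (cl f.2 n)) (pl f.1 (cl f.2 n)) x} :=
          measure_iUnion_fintype_le _ _
      _ = _ := by
          refine Finset.sum_congr rfl fun f _ => ?_
          apply th_eq
          have := (Fintype.mem_piFinset.1 hx) f.1
          simp only [Finset.mem_Ico] at this
          rw [Int.toNat_of_nonneg]
          rcases f with ⟨i, b⟩
          cases b
          · simp only [sg, cl]; simpa using this.1
          · simp only [sg, cl, if_true]; linarith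
  refine (Finset.sum_le_sum h1).trans ?_
  rw [Finset.sum_comm, aw, Finset.mul_sum]
  refine Finset.sum_le_sum fun f _ => ?_
  rw [bx_eq n f.1, sum_pi _ _ f.1 (fun t => th ν f.1 f.2 (sg f.2 * (t - cl f.2 n)).toNat)]
  simp only [Int.card_Ico, sub_zero, Int.toNat_natCast]
  gcongr
  have hinj : Set.InjOn (fun t : ℤ => (sg f.2 * (t - cl f.2 n)).toNat)
      (Finset.Ico 0 (n : ℤ) : Set ℤ) := by
    intro s hs t ht hst
    simp only [Finset.coe_Ico, mem_Ico] at hs ht
    rcases f with ⟨i, b⟩
    cases b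
    · simp only [sg, cl] at hst
      simp at hst
      omega
    · simp only [sg, cl, if_true] at hst
      omega
  rw [← Finset.sum_image (f := fun r => th ν f.1 f.2 r) hinj]
  exact ENNReal.sum_le_tsum _

end Pool.Agent.TH993.WP
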