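import Pool.Agent.TH993.WP.B

open MeasureTheory ProbabilityTheory Filter Topology Set
open scoped ENNReal NNReal

namespace Pool.Agent.TH993.WP

theorem second_moment {Ω ι : Type*} [MeasurableSpace Ω] (μ : Measure Ω) [IsProbabilityMeasure μ]
    (J : Finset ι) (E : ι → Set Ω) (hE : ∀ j, MeasurableSet (E j)) (D : ℕ)
    (hD : ∀ j ∈ J, ∃ s : Finset ι, s.card ≤ D ∧
      ∀ k ∈ J, k ∉ s → μ (E j ∩ E k) = μ (E j) * μ (E k))
    (t : ℝ) (ht : 0 < t) :
    μ {ω | ∑ j ∈ J, (E j).indicator (fun _ => (1 : ℝ)) ω ≤ ∑ j ∈ J, μ.real (E j) - t} ≤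
      ENNReal.ofReal (J.card * D / t ^ 2) := by
  classical
  set X : ι → Ω → ℝ := fun j => (E j).indicator (fun _ => (1 : ℝ)) with hX
  have hmem : ∀ j, MemLp (X j) 2 μ := fun j =>
    memLp_indicator_const 2 (hE j) 1 (Or.inr (measure_ne_top _ _))
  have hint : ∀ j, μ[X j] = μ.real (E j) := by
    intro j
    simp only [hX]
    rw [integral_indicator_const _ (hE j)]
    simp
  have hcov : ∀ j k, cov[X j, X k; μ] = μ.real (E j ∩ E k) - μ.real (E j) * μ.real (E k) := by
    intro j k
    rw [covariance_eq_sub (hmem j) (hmem k), hint, hint]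
    congr 1
    have : (X j * X k) = (E j ∩ E k).indicator (fun _ => (1 : ℝ)) := by
      funext ω
      by_cases h1 : ω ∈ E j <;> by_cases h2 : ω ∈ E k <;> simp [hX, h1, h2]
    rw [this, integral_indicator_const _ ((hE j).inter (hE k))]
    simp
  have hsum : MemLp (∑ j ∈ J, X j) 2 μ := memLp_finsetSum' _ fun j _ => hmem j
  have hvar : Var[∑ j ∈ J, X j; μ] ≤ J.card * D := by
    rw [variance_sum' (fun j _ => hmem j)]
    calc ∑ i ∈ J, ∑ j ∈ J, cov[X i, X j; μ] ≤ ∑ i ∈ J, (D : ℝ) := by
          refine Finset.sum_le_sum fun i hi => ?_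
          obtain ⟨s, hs, hs'⟩ := hD i hi
          calc ∑ j ∈ J, cov[X i, X j; μ] ≤ ∑ j ∈ J, (if j ∈ s then (1 : ℝ) else 0) := by
                refine Finset.sum_le_sum fun k hk => ?_
                rw [hcov]
                split_ifs with h
                · have h1 : μ.real (E i ∩ E k) ≤ 1 := measureReal_le_one
                  have h2 : 0 ≤ μ.real (E i) * μ.real (E k) := by positivity
                  linarith
                · have := hs' k hk h
                  have h3 : μ.real (E i ∩ E k) = μ.real (E i) * μ.real (E k) := by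
                    simp only [measureReal_def, this, ENNReal.toReal_mul]
                  rw [h3, sub_self]
            _ = ((J.filter (· ∈ s)).card : ℝ) := by simp [Finset.filter_mem_eq_inter]
            _ ≤ D := by
                have : (J.filter (· ∈ s)).card ≤ s.card :=
                  Finset.card_le_card fun a ha => (Finset.mem_filter.1 ha).2
                exact_mod_cast this.trans hs
      _ = J.card * D := by simp
  have hmean : μ[∑ j ∈ J, X j] = ∑ j ∈ J, μ.real (E j) := by
    simp only [Finset.sum_apply]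
    rw [integral_finsetSum _ (fun j _ => (hmem j).integrable (by norm_num))]
    exact Finset.sum_congr rfl fun j _ => hint j
  calc μ {ω | ∑ j ∈ J, (E j).indicator (fun _ => (1 : ℝ)) ω ≤ ∑ j ∈ J, μ.real (E j) - t}
      ≤ μ {ω | t ≤ |(∑ j ∈ J, X j) ω - μ[∑ j ∈ J, X j]|} := by
        apply measure_mono
        intro ω hω
        rw [mem_ofPred_eq] at hω ⊢
        rw [hmean, Finset.sum_apply]
        rw [abs_sub_comm]
        exact le_trans (by linarith) (le_abs_self _)
    _ ≤ ENNReal.ofReal (Var[∑ j ∈ J, X j; μ] / t ^ 2) := meas_ge_le_variance_div_sq hsum ht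
    _ ≤ _ := ENNReal.ofReal_le_ofReal (by gcongr)

end Pool.Agent.TH993.WP
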