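import Pool.Agent.TH993.WP.C

open MeasureTheory ProbabilityTheory Filter Topology Set
open scoped ENNReal NNReal

namespace Pool.Agent.TH993.WP

variable {d : ℕ}

/-- finite ball -/
noncomputable def ballF (x : V d) (L : ℕ) : Finset (V d) :=
  Fintype.piFinset (fun j => Finset.Icc (x j - L) (x j + L))

theorem mem_ballF {x z : V d} {L : ℕ} : z ∈ ballF x L ↔ z ∈ ball x L := by
  simp only [ballF, Fintype.mem_piFinset, Finset.mem_Icc, ball, mem_ofPred_eq, abs_le]
  constructor
  · intro h j; have := h j; constructor <;> linarith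
  · intro h j; have := h j; constructor <;> linarith

theorem card_ballF (x : V d) (L : ℕ) : (ballF x L).card = (2 * L + 1) ^ d := by
  simp only [ballF, Fintype.card_piFinset, Int.card_Icc]
  have : ∀ j : Fin d, (x j + (L : ℤ) + 1 - (x j - L)).toNat = 2 * L + 1 := by
    intro j; omega
  simp [this]

/-- the events of connection inside two disjoint balls are independent -/
theorem indep_balls (ν : Measure Bool) [IsProbabilityMeasure ν] (x x' : V d) (L : ℕ)
    (j : Fin d) (hj : 2 * (L : ℤ) < |x j - x' j|) (S S' A A' : Set (V d)) (u u' : V d) :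
    P d ν ({ω | ConnTo ω (S ∩ ball x L) A u} ∩ {ω | ConnTo ω (S' ∩ ball x' L) A' u'}) =
      P d ν {ω | ConnTo ω (S ∩ ball x L) A u} * P d ν {ω | ConnTo ω (S' ∩ ball x' L) A' u'} := by
  classical
  refine indep_local ν (ballF x L).sym2 (ballF x' L).sym2 ?_ _ _ (meas_connTo _ _ _)
    (meas_connTo _ _ _) ?_ ?_
  · rw [Finset.disjoint_left]
    intro e he he'
    induction e with
    | _ a b =>
      rw [Finset.mk_mem_sym2_iff] at he he'
      have h1 := (mem_ballF.1 he.1) j
      have h2 := (mem_ballF.1 he'.1) j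
      rw [abs_le] at h1 h2
      have : |x j - x' j| ≤ 2 * L := by rw [abs_le]; constructor <;> linarith
      linarith
  · intro ω ω' h hc
    obtain ⟨y, hy, hc⟩ := hc
    exact ⟨y, hy, conn_congr (fun a ha b hb => h _ (Finset.mk_mem_sym2_iff.2
      ⟨mem_ballF.2 ha.2, mem_ballF.2 hb.2⟩)) hc⟩
  · intro ω ω' h hc
    obtain ⟨y, hy, hc⟩ := hc
    exact ⟨y, hy, conn_congr (fun a ha b hb => h _ (Finset.mk_mem_sym2_iff.2
      ⟨mem_ballF.2 ha.2, mem_ballF.2 hb.2⟩)) hc⟩

/-- the range of the coordinate `i` for points of depth at most `R` on side `b` -/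
noncomputable def rg (b : Bool) (R n : ℕ) : Finset ℤ :=
  if b then Finset.Ico ((n : ℤ) - 1 - R) n else Finset.Ico 0 ((R : ℤ) + 1)

/-- the slab below a face -/
noncomputable def slab (f : Fin d × Bool) (R M n : ℕ) : Finset (V d) :=
  Fintype.piFinset (fun j => if j = f.1 then rg f.2 R n else Finset.Ico (M : ℤ) ((n : ℤ) - M))

theorem mem_slab {f : Fin d × Bool} {R M n : ℕ} {x : V d} :
    x ∈ slab f R M n ↔ x f.1 ∈ rg f.2 R n ∧ ∀ j, j ≠ f.1 → (M : ℤ) ≤ x j ∧ x j < (n : ℤ) - M := by
  simp only [slab, Fintype.mem_piFinset]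
  constructor
  · intro h
    refine ⟨by simpa using h f.1, fun j hj => by simpa [hj] using h j⟩
  · rintro ⟨h1, h2⟩ j
    by_cases hj : j = f.1
    · subst hj; simpa using h1
    · simpa [hj] using h2 j hj

/-- local event -/
def ev (n L : ℕ) (f : Fin d × Bool) (x : V d) : Set (Cfg d) :=
  {ω | ConnTo ω (hs f.1 (sg f.2) (cl f.2 n) ∩ ball x L) (pl f.1 (cl f.2 n)) x}

/-- the slabs, as a disjoint union -/
noncomputable def JJ (d R M n : ℕ) : Finset (Σ _ : Fin d × Bool, V d) :=
  (Finset.univ : Finset (Fin d × Bool)).sigma (fun f => slab f R M n)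

theorem card_rg (b : Bool) (R n : ℕ) : (rg b R n).card = R + 1 := by
  cases b
  · simp only [rg, Bool.false_eq_true, if_false, Int.card_Ico]; omega
  · simp only [rg, if_true, Int.card_Ico]; omega

theorem rg_depth (b : Bool) (R n : ℕ) {t : ℤ} (ht : t ∈ rg b R n) :
    0 ≤ sg b * (t - cl b n) ∧ sg b * (t - cl b n) ≤ R := by
  cases b
  · simp only [rg, Bool.false_eq_true, if_false, Finset.mem_Ico] at ht
    simp only [sg, cl, Bool.false_eq_true, if_false]; omega
  · simp only [rg, if_true, Finset.mem_Ico] at ht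
    simp only [sg, cl, if_true]; omega

theorem sum_rg {R' : Type*} [AddCommMonoid R'] (b : Bool) (R n : ℕ) (g : ℕ → R') :
    ∑ t ∈ rg b R n, g (sg b * (t - cl b n)).toNat = ∑ r ∈ Finset.range (R + 1), g r := by
  refine Finset.sum_nbij' (fun t => (sg b * (t - cl b n)).toNat) (fun r => cl b n + sg b * r)
    ?_ ?_ ?_ ?_ ?_
  · intro t ht
    have := rg_depth b R n ht
    simp only [Finset.mem_range]; omega
  · intro r hr
    simp only [Finset.mem_range] at hr
    cases b
    · simp only [rg, sg, cl, Bool.false_eq_true, if_false, Finset.mem_Ico]; omega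
    · simp only [rg, sg, cl, if_true, Finset.mem_Ico]; omega
  · intro t ht
    have := rg_depth b R n ht
    show cl b n + sg b * ((sg b * (t - cl b n)).toNat : ℤ) = t
    rw [Int.toNat_of_nonneg this.1, sg_mul]; ring
  · intro r hr
    have : sg b * (cl b n + sg b * (r : ℤ) - cl b n) = r := by
      have h := sg_mul b (r : ℤ)
      have h2 : cl b n + sg b * (r : ℤ) - cl b n = sg b * r := by ring
      rw [h2, h]
    show (sg b * (cl b n + sg b * (r : ℤ) - cl b n)).toNat = r
    rw [this]; simp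
  · intro t ht; rfl

theorem prob_ev (ν : Measure Bool) [IsProbabilityMeasure ν] {n L R M : ℕ} {f : Fin d × Bool}
    {x : V d} (hx : x ∈ slab f R M n) :
    P d ν (ev n L f x) = thL ν f.1 f.2 (sg f.2 * (x f.1 - cl f.2 n)).toNat L := by
  apply thL_eq
  rw [Int.toNat_of_nonneg (rg_depth _ _ _ (mem_slab.1 hx).1).1]

theorem sum_ev (ν : Measure Bool) [IsProbabilityMeasure ν] (n L R M : ℕ) :
    ∑ j ∈ JJ d R M n, (P d ν).real (ev n L j.1 j.2) =
      ((n - 2 * M : ℕ) : ℝ) ^ (d - 1) *
        ∑ f : Fin d × Bool, ∑ r ∈ Finset.range (R + 1), (thL ν f.1 f.2 r L).toReal := by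
  rw [JJ, Finset.sum_sigma, Finset.mul_sum]
  refine Finset.sum_congr rfl fun f _ => ?_
  have h1 : ∀ x ∈ slab f R M n, (P d ν).real (ev n L f x) =
      (fun t => (thL ν f.1 f.2 (sg f.2 * (t - cl f.2 n)).toNat L).toReal) (x f.1) := by
    intro x hx
    rw [measureReal_def, prob_ev ν hx]
  rw [Finset.sum_congr rfl h1, slab, sum_pi (Finset.Ico (M : ℤ) ((n : ℤ) - M)) (rg f.2 R n) f.1
    (fun t => (thL ν f.1 f.2 (sg f.2 * (t - cl f.2 n)).toNat L).toReal),
    sum_rg f.2 R n (fun r => (thL ν f.1 f.2 r L).toReal)]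
  congr 3
  simp only [Int.card_Ico]; omega

theorem card_JJ (R M n : ℕ) :
    (JJ d R M n).card = 2 * d * ((R + 1) * (n - 2 * M) ^ (d - 1)) := by
  rw [JJ, Finset.card_sigma]
  have : ∀ f : Fin d × Bool, (slab f R M n).card = (R + 1) * (n - 2 * M) ^ (d - 1) := by
    intro f
    have h := sum_pi (R := ℕ) (Finset.Ico (M : ℤ) ((n : ℤ) - M)) (rg f.2 R n) f.1 (fun _ => 1)
    simp only [Finset.sum_const, smul_eq_mul, mul_one, card_rg, Int.card_Ico, Nat.cast_id] at h
    rw [slab, h, mul_comm]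
    congr 2
    omega
  simp only [this, Finset.sum_const, Finset.card_univ, Fintype.card_prod, Fintype.card_fin,
    Fintype.card_bool, smul_eq_mul]
  ring

/-- the number of points of the box joined to its boundary inside the box -/
noncomputable def Nb (d n : ℕ) (ω : Cfg d) : ℕ :=
  {x | x ∈ bx d n ∧ ConnTo ω (bx d n : Set (V d)) (bd d n) x}.ncard

theorem sub_box {n L R : ℕ} (hn : R + L + 1 ≤ n) {f : Fin d × Bool} {x : V d}
    (hx : x ∈ slab f R (R + L + 1) n) :
    hs f.1 (sg f.2) (cl f.2 n) ∩ ball x L ⊆ (bx d n : Set (V d)) := by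
  rintro z ⟨h1, h2⟩
  rw [mem_slab] at hx
  rw [Finset.mem_coe, bx, Fintype.mem_piFinset]
  intro j
  rw [Finset.mem_Ico]
  have hj := abs_le.1 (h2 j)
  by_cases hjf : j = f.1
  · subst hjf
    have hd := rg_depth _ _ _ hx.1
    simp only [hs, mem_ofPred_eq] at h1
    rcases f with ⟨i, b⟩
    cases b
    · simp only [sg, cl, Bool.false_eq_true, if_false] at hd h1 ⊢
      constructor
      · linarith
      · simp only at hj; push_cast at *; omega
    · simp only [sg, cl, if_true] at hd h1 ⊢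
      constructor
      · simp only at hj; push_cast at *; omega
      · linarith
  · have := hx.2 j hjf
    push_cast at this
    constructor <;> linarith

theorem conn_mem {ω : Cfg d} {S : Set (V d)} {x y : V d} (hx : x ∈ S) (h : Conn ω S x y) :
    y ∈ S := by
  induction h with
  | refl => exact hx
  | tail _ h2 _ => exact h2.2.1

theorem ev_sub {n L R : ℕ} (hn : R + L + 1 ≤ n) {f : Fin d × Bool} {x : V d}
    (hx : x ∈ slab f R (R + L + 1) n) {ω : Cfg d} (hω : ω ∈ ev n L f x) :
    x ∈ bx d n ∧ ConnTo ω (bx d n : Set (V d)) (bd d n) x := by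
  have hxS : x ∈ hs f.1 (sg f.2) (cl f.2 n) ∩ ball x L :=
    ⟨(rg_depth _ _ _ (mem_slab.1 hx).1).1, fun j => by simp⟩
  obtain ⟨y, hy, hc⟩ := hω
  refine ⟨sub_box hn hx hxS, y, ⟨sub_box hn hx (conn_mem hxS hc), f.1, ?_⟩,
    conn_mono (sub_box hn hx) hc⟩
  simp only [pl, mem_ofPred_eq] at hy
  rw [hy]
  rcases f with ⟨i, b⟩
  cases b <;> simp [cl]

theorem slab_disj {n L R : ℕ} (hn : 2 * (R + 1) ≤ n) {f g : Fin d × Bool} {x : V d}
    (hf : x ∈ slab f R (R + L + 1) n) (hg : x ∈ slab g R (R + L + 1) n) : f = g := by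
  rw [mem_slab] at hf hg
  have e1 := rg_depth _ _ _ hf.1
  have e2 := rg_depth _ _ _ hg.1
  rcases f with ⟨i, b⟩
  rcases g with ⟨j, c⟩
  simp only at *
  by_cases hij : i = j
  · subst hij
    cases b <;> cases c <;> simp only [sg, cl, Bool.false_eq_true, if_false, if_true] at e1 e2 ⊢
    · omega
    · omega
  · have h3 := hf.2 j (Ne.symm hij)
    push_cast at h3
    exfalso
    cases c <;> simp only [sg, cl, Bool.false_eq_true, if_false, if_true] at e2 <;> omega

theorem le_Nb {n L R : ℕ} (hn : 2 * (R + L + 1) ≤ n) (ω : Cfg d) :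
    ∑ j ∈ JJ d R (R + L + 1) n, (ev n L j.1 j.2).indicator (fun _ => (1 : ℝ)) ω ≤ Nb d n ω := by
  classical
  have h1 : ∑ j ∈ JJ d R (R + L + 1) n, (ev n L j.1 j.2).indicator (fun _ => (1 : ℝ)) ω =
      (((JJ d R (R + L + 1) n).filter (fun j => ω ∈ ev n L j.1 j.2)).card : ℝ) := by
    rw [Finset.card_filter]
    push_cast
    refine Finset.sum_congr rfl fun j _ => ?_
    simp [Set.indicator_apply]
  rw [h1]
  have hfin : {x | x ∈ bx d n ∧ ConnTo ω (bx d n : Set (V d)) (bd d n) x}.Finite :=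
    (bx d n).finite_toSet.subset fun x hx => hx.1
  rw [Nb, Set.ncard_eq_toFinset_card _ hfin]
  norm_cast
  refine Finset.card_le_card_of_injOn (fun j => j.2) ?_ ?_
  · intro j hj
    rw [Finset.mem_coe, Finset.mem_filter, JJ, Finset.mem_sigma] at hj
    simp only [Finset.mem_coe, Set.Finite.mem_toFinset, mem_ofPred_eq]
    exact ev_sub (by omega) hj.1.2 hj.2
  · intro j hj k hk hjk
    rw [Finset.mem_coe, Finset.mem_filter, JJ, Finset.mem_sigma] at hj hk
    rcases j with ⟨f, x⟩
    rcases k with ⟨g, y⟩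
    simp only at hjk hj hk
    subst hjk
    have : f = g := slab_disj (by omega) hj.1.2 hk.1.2
    subst this
    rfl

end Pool.Agent.TH993.WP
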