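import Pool.Agent.TH993.WP.D

open MeasureTheory ProbabilityTheory Filter Topology Set
open scoped ENNReal NNReal

namespace Pool.Agent.TH993.WP

variable {d : ℕ}

theorem ev_indep (ν : Measure Bool) [IsProbabilityMeasure ν] (n L R M : ℕ)
    (j : Σ _ : Fin d × Bool, V d) :
    ∃ s : Finset (Σ _ : Fin d × Bool, V d), s.card ≤ 2 * d * (2 * (2 * L) + 1) ^ d ∧
      ∀ k ∈ JJ d R M n, k ∉ s → P d ν (ev n L j.1 j.2 ∩ ev n L k.1 k.2) =
        P d ν (ev n L j.1 j.2) * P d ν (ev n L k.1 k.2) := by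
  classical
  refine ⟨(Finset.univ : Finset (Fin d × Bool)).sigma (fun _ => ballF j.2 (2 * L)), ?_, ?_⟩
  · rw [Finset.card_sigma]
    simp only [card_ballF, Finset.sum_const, Finset.card_univ, Fintype.card_prod,
      Fintype.card_fin, Fintype.card_bool, smul_eq_mul]
    exact le_of_eq (by ring)
  · intro k _ hk
    rw [Finset.mem_sigma, not_and] at hk
    have hk' := hk (Finset.mem_univ _)
    rw [mem_ballF] at hk'
    simp only [ball, mem_ofPred_eq, not_forall, not_le] at hk'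
    obtain ⟨i, hi⟩ := hk'
    refine indep_balls ν j.2 k.2 L i ?_ _ _ _ _ _ _
    rw [abs_sub_comm]
    push_cast at hi
    exact hi

theorem lower_tail (ν : Measure Bool) [IsProbabilityMeasure ν] (n L R : ℕ)
    (hn : 2 * (R + L + 1) ≤ n) (t : ℝ) (ht : 0 < t) :
    P d ν {ω | (Nb d n ω : ℝ) ≤ ((n - 2 * (R + L + 1) : ℕ) : ℝ) ^ (d - 1) *
        (∑ f : Fin d × Bool, ∑ r ∈ Finset.range (R + 1), (thL ν f.1 f.2 r L).toReal) - t} ≤
      ENNReal.ofReal ((2 * d * (R + 1) * (2 * d * (2 * (2 * L) + 1) ^ d)) * (n : ℝ) ^ (d - 1) / t ^ 2) := by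
  have h := second_moment (P d ν) (JJ d R (R + L + 1) n) (fun j => ev n L j.1 j.2)
    (fun j => meas_connTo _ _ _) (2 * d * (2 * (2 * L) + 1) ^ d)
    (fun j _ => ev_indep ν n L R (R + L + 1) j) t ht
  refine le_trans (measure_mono ?_) (h.trans (ENNReal.ofReal_le_ofReal ?_))
  · intro ω hω
    rw [mem_ofPred_eq] at hω ⊢
    rw [sum_ev]
    exact (le_Nb hn ω).trans hω
  · rw [card_JJ]
    push_cast
    have h1 : ((n - 2 * (R + L + 1) : ℕ) : ℝ) ^ (d - 1) ≤ (n : ℝ) ^ (d - 1) := by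
      apply pow_le_pow_left₀ (by positivity)
      exact_mod_cast Nat.sub_le _ _
    have h2 : (2 * (d : ℝ) * (((R : ℝ) + 1) * ((n - 2 * (R + L + 1) : ℕ) : ℝ) ^ (d - 1)) *
        (2 * d * (2 * (2 * (L : ℝ)) + 1) ^ d)) ≤
        (2 * d * (R + 1) * (2 * d * (2 * (2 * L) + 1) ^ d)) * (n : ℝ) ^ (d - 1) := by
      have h3 : 0 ≤ (2 * (d : ℝ) * (R + 1) * (2 * d * (2 * (2 * L) + 1) ^ d)) := by positivity
      nlinarith [mul_le_mul_of_nonneg_left h1 h3]
    gcongr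

theorem choose_RL (ν : Measure Bool) [IsProbabilityMeasure ν] (K : ℝ≥0)
    (hK : (K : ℝ≥0∞) < aw d ν) :
    ∃ R L : ℕ, (K : ℝ) < ∑ f : Fin d × Bool, ∑ r ∈ Finset.range (R + 1),
      (thL ν f.1 f.2 r L).toReal := by
  have h1 : Tendsto (fun R : ℕ => ∑ f : Fin d × Bool, ∑ r ∈ Finset.range (R + 1), th ν f.1 f.2 r)
      atTop (𝓝 (aw d ν)) :=
    tendsto_finsetSum _ fun f _ => (ENNReal.tendsto_nat_tsum _).comp (tendsto_add_atTop_nat 1)
  obtain ⟨R, hR⟩ := (h1.eventually (lt_mem_nhds hK)).exists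
  have h2 : Tendsto (fun L : ℕ => ∑ f : Fin d × Bool, ∑ r ∈ Finset.range (R + 1),
      thL ν f.1 f.2 r L) atTop
      (𝓝 (∑ f : Fin d × Bool, ∑ r ∈ Finset.range (R + 1), th ν f.1 f.2 r)) :=
    tendsto_finsetSum _ fun f _ => tendsto_finsetSum _ fun r _ => thL_tendsto ν f.1 f.2 r
  obtain ⟨L, hL⟩ := (h2.eventually (lt_mem_nhds hR)).exists
  refine ⟨R, L, ?_⟩
  have hfin : ∀ (f : Fin d × Bool) (r : ℕ), thL ν f.1 f.2 r L ≠ ∞ := fun f r => measure_ne_top _ _
  have h3 : (∑ f : Fin d × Bool, ∑ r ∈ Finset.range (R + 1), thL ν f.1 f.2 r L).toReal =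
      ∑ f : Fin d × Bool, ∑ r ∈ Finset.range (R + 1), (thL ν f.1 f.2 r L).toReal := by
    rw [ENNReal.toReal_sum]
    · refine Finset.sum_congr rfl fun f _ => ?_
      rw [ENNReal.toReal_sum]
      intro r _; exact hfin f r
    · intro f _
      exact (ENNReal.sum_lt_top.2 fun r _ => (hfin f r).lt_top).ne
  rw [← h3]
  have h4 : (∑ f : Fin d × Bool, ∑ r ∈ Finset.range (R + 1), thL ν f.1 f.2 r L) ≠ ∞ :=
    (ENNReal.sum_lt_top.2 fun f _ => ENNReal.sum_lt_top.2 fun r _ => (hfin f r).lt_top).ne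
  have := (ENNReal.toReal_lt_toReal ENNReal.coe_ne_top h4).2 hL
  simpa using this

theorem tendsto_one_of_compl {Ω : Type*} [MeasurableSpace Ω] (μ : Measure Ω)
    [IsProbabilityMeasure μ] (A : ℕ → Set Ω) (h : Tendsto (fun n => μ (A n)ᶜ) atTop (𝓝 0)) :
    Tendsto (fun n => μ (A n)) atTop (𝓝 1) := by
  have h1 : Tendsto (fun n => 1 - μ (A n)ᶜ) atTop (𝓝 1) := by
    have := ENNReal.Tendsto.sub (tendsto_const_nhds (x := (1 : ℝ≥0∞))) h (Or.inl (by simp))
    simpa using this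
  refine tendsto_of_tendsto_of_tendsto_of_le_of_le h1 tendsto_const_nhds ?_ (fun n => prob_le_one)
  intro n
  rw [tsub_le_iff_right]
  calc (1 : ℝ≥0∞) = μ univ := measure_univ.symm
    _ = μ (A n ∪ (A n)ᶜ) := by rw [union_compl_self]
    _ ≤ _ := measure_union_le _ _

theorem lower (hd : 2 ≤ d) (ν : Measure Bool) [IsProbabilityMeasure ν] (K : ℝ≥0)
    (hK : (K : ℝ≥0∞) < aw d ν) :
    Tendsto (fun n : ℕ => P d ν {ω | (K : ℝ) * (n : ℝ) ^ (d - 1) < Nb d n ω}) atTop (𝓝 1) := by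
  obtain ⟨R, L, hS⟩ := choose_RL ν K hK
  set S := ∑ f : Fin d × Bool, ∑ r ∈ Finset.range (R + 1), (thL ν f.1 f.2 r L).toReal with hSdef
  set δ : ℝ := (S - K) / 2 with hδ
  have hδ0 : 0 < δ := by rw [hδ]; linarith
  set M := R + L + 1 with hM
  set C : ℝ := 2 * d * (R + 1) * (2 * d * (2 * (2 * L) + 1) ^ d) with hC
  have e1 : Tendsto (fun n : ℕ => (1 - (2 * M : ℝ) / n) ^ (d - 1) * S) atTop (𝓝 S) := by
    have := ((tendsto_const_nhds (x := (1 : ℝ))).sub
      (tendsto_const_div_atTop_nhds_zero_nat (2 * M : ℝ))).pow (d - 1) |>.mul_const S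
    simpa using this
  have e2 : ∀ᶠ n : ℕ in atTop, (K : ℝ) + δ < (1 - (2 * M : ℝ) / n) ^ (d - 1) * S :=
    e1.eventually (lt_mem_nhds (by rw [hδ]; linarith))
  apply tendsto_one_of_compl
  have e3 : Tendsto (fun n : ℕ => ENNReal.ofReal (C / δ ^ 2 / (n : ℝ) ^ (d - 1))) atTop (𝓝 0) := by
    have h0 : Tendsto (fun n : ℕ => C / δ ^ 2 / (n : ℝ) ^ (d - 1)) atTop (𝓝 0) := by
      apply Tendsto.const_div_atTop
      exact (tendsto_pow_atTop (by omega)).comp tendsto_natCast_atTop_atTop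
    have := ENNReal.tendsto_ofReal h0
    simpa using this
  refine tendsto_of_tendsto_of_tendsto_of_le_of_le' tendsto_const_nhds e3
    (Eventually.of_forall fun n => bot_le) ?_
  filter_upwards [e2, eventually_ge_atTop (2 * M + 1)] with n hn1 hn2
  have hn0 : (0 : ℝ) < n := by exact_mod_cast (by omega : 0 < n)
  have hp : (0 : ℝ) < (n : ℝ) ^ (d - 1) := by positivity
  have h5 := lower_tail (d := d) ν n L R (by omega) (δ * (n : ℝ) ^ (d - 1)) (by positivity)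
  refine le_trans (measure_mono ?_) (h5.trans (ENNReal.ofReal_le_ofReal (le_of_eq ?_)))
  · intro ω hω
    rw [mem_compl_iff, mem_ofPred_eq, not_lt] at hω
    rw [mem_ofPred_eq]
    refine hω.trans ?_
    have h6 : ((n - 2 * (R + L + 1) : ℕ) : ℝ) = n * (1 - (2 * M : ℝ) / n) := by
      rw [Nat.cast_sub (by omega)]
      field_simp
      push_cast [hM]
      ring
    rw [h6, mul_pow]
    have h7 := mul_lt_mul_of_pos_left hn1 hp
    rw [← hSdef]
    nlinarith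
  · rw [← hC]
    field_simp

end Pool.Agent.TH993.WP
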