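import Pool.Agent.TH993.WP.E

open MeasureTheory ProbabilityTheory Filter Topology Set
open scoped ENNReal NNReal

namespace Pool.Agent.TH993.WP

variable {d : ℕ}

open Classical in
theorem Nb_eq (n : ℕ) (ω : Cfg d) :
    Nb d n ω = ∑ x ∈ bx d n, if ConnTo ω (bx d n : Set (V d)) (bd d n) x then 1 else 0 := by
  rw [← Finset.card_filter, Nb, ← Set.ncard_coe_finset]
  congr 1
  ext x; simp

theorem meas_Nb (n : ℕ) : Measurable (fun ω : Cfg d => Nb d n ω) := by
  classical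
  simp only [Nb_eq]
  exact Finset.measurable_sum _ fun x _ =>
    Measurable.ite (meas_connTo _ _ _) measurable_const measurable_const

theorem lint_Nb (ν : Measure Bool) [IsProbabilityMeasure ν] (n : ℕ) :
    ∫⁻ ω, (Nb d n ω : ℝ≥0∞) ∂(P d ν) ≤ (n : ℝ≥0∞) ^ (d - 1) * aw d ν := by
  classical
  refine le_trans (le_of_eq ?_) (exp_le ν n)
  simp only [Nb_eq]
  push_cast
  rw [lintegral_finsetSum _ (fun x _ =>
    Measurable.ite (meas_connTo _ _ _) measurable_const measurable_const)]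
  refine Finset.sum_congr rfl fun x _ => ?_
  have : (fun ω : Cfg d => (if ConnTo ω (bx d n : Set (V d)) (bd d n) x then (1 : ℝ≥0∞) else 0)) =
      ({ω | ConnTo ω (bx d n : Set (V d)) (bd d n) x}).indicator 1 := by
    funext ω; simp [Set.indicator_apply]
  rw [this, lintegral_indicator_one (meas_connTo _ _ _)]

theorem aw_pos (ν : Measure Bool) [IsProbabilityMeasure ν] : 2 * (d : ℝ≥0∞) ≤ aw d ν := by
  have h1 : ∀ (i : Fin d) (b : Bool), th ν i b 0 = 1 := by
    intro i b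
    have : {ω : Cfg d | ConnTo ω (hs i (sg b) 0) (pl i 0) (pt i b 0)} = univ := by
      ext ω
      simp only [mem_ofPred_eq, mem_univ, iff_true]
      exact ⟨pt i b 0, by simp [pl, pt], Relation.ReflTransGen.refl⟩
    rw [th, this, measure_univ]
  have h2 : ∀ f : Fin d × Bool, (1 : ℝ≥0∞) ≤ ∑' r, th ν f.1 f.2 r := by
    intro f
    rw [← h1 f.1 f.2]
    exact ENNReal.le_tsum 0
  calc 2 * (d : ℝ≥0∞) = ∑ f : Fin d × Bool, (1 : ℝ≥0∞) := by simp [mul_comm]
    _ ≤ aw d ν := Finset.sum_le_sum fun f _ => h2 f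

theorem two_level (ν : Measure Bool) [IsProbabilityMeasure ν] (n : ℕ) (hn : 0 < n) (K K' : ℝ≥0)
    (hK : K' ≤ K) :
    (K' : ℝ≥0∞) * P d ν {ω | (K' : ℝ) * (n : ℝ) ^ (d - 1) < Nb d n ω} +
      ((K - K' : ℝ≥0) : ℝ≥0∞) * P d ν {ω | (K : ℝ) * (n : ℝ) ^ (d - 1) ≤ Nb d n ω} ≤ aw d ν := by
  set A := {ω : Cfg d | (K' : ℝ) * (n : ℝ) ^ (d - 1) < Nb d n ω} with hA
  set B := {ω : Cfg d | (K : ℝ) * (n : ℝ) ^ (d - 1) ≤ Nb d n ω} with hB
  have mN : Measurable (fun ω : Cfg d => (Nb d n ω : ℝ)) :=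
    measurable_from_top.comp (meas_Nb n)
  have mA : MeasurableSet A := measurableSet_lt measurable_const mN
  have mB : MeasurableSet B := measurableSet_le measurable_const mN
  set c : ℝ≥0 := (n : ℝ≥0) ^ (d - 1) with hc
  have hc0 : 0 < c := by positivity
  have h1 : ∀ ω : Cfg d, A.indicator (fun _ => ((K' * c : ℝ≥0) : ℝ≥0∞)) ω +
      B.indicator (fun _ => (((K - K') * c : ℝ≥0) : ℝ≥0∞)) ω ≤ (Nb d n ω : ℝ≥0∞) := by
    intro ω
    by_cases hωB : ω ∈ B
    · have h2 : K * c ≤ (Nb d n ω : ℝ≥0) := by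
        rw [← NNReal.coe_le_coe]; push_cast [hc]; exact hωB
      have h3 : K' * c + (K - K') * c ≤ (Nb d n ω : ℝ≥0) := by
        rw [← add_mul, add_tsub_cancel_of_le hK]; exact h2
      have h4 : A.indicator (fun _ => ((K' * c : ℝ≥0) : ℝ≥0∞)) ω ≤ ((K' * c : ℝ≥0) : ℝ≥0∞) :=
        Set.indicator_le_self' (fun _ _ => bot_le) ω
      rw [Set.indicator_of_mem hωB]
      refine (add_le_add_left h4 _).trans ?_
      rw [← ENNReal.coe_add]
      exact_mod_cast h3
    · rw [Set.indicator_of_notMem hωB, add_zero]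
      by_cases hωA : ω ∈ A
      · rw [Set.indicator_of_mem hωA]
        have h2 : K' * c ≤ (Nb d n ω : ℝ≥0) := by
          rw [← NNReal.coe_le_coe]; push_cast [hc]; exact le_of_lt hωA
        exact_mod_cast h2
      · rw [Set.indicator_of_notMem hωA]; exact bot_le
  have h5 := lintegral_mono (μ := P d ν) h1
  rw [lintegral_add_left (measurable_const.indicator mA), lintegral_indicator_const mA,
    lintegral_indicator_const mB] at h5
  have h6 := h5.trans (lint_Nb ν n)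
  have h7 : (c : ℝ≥0∞) * ((K' : ℝ≥0∞) * P d ν A + ((K - K' : ℝ≥0) : ℝ≥0∞) * P d ν B) ≤
      (c : ℝ≥0∞) * aw d ν := by
    calc _ = ((K' * c : ℝ≥0) : ℝ≥0∞) * P d ν A + (((K - K') * c : ℝ≥0) : ℝ≥0∞) * P d ν B := by
          rw [ENNReal.coe_mul, ENNReal.coe_mul]; ring
      _ ≤ _ := by
          refine h6.trans (le_of_eq ?_)
          rw [hc]; push_cast; rfl
  have hc1 : (c : ℝ≥0∞) ≠ 0 := by exact_mod_cast hc0.ne'
  exact (ENNReal.mul_le_mul_iff_right hc1 ENNReal.coe_ne_top).1 h7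

theorem upper_q (hd : 2 ≤ d) (ν : Measure Bool) [IsProbabilityMeasure ν] (K : ℝ≥0)
    (hK : aw d ν < (K : ℝ≥0∞)) :
    Tendsto (fun n : ℕ => P d ν {ω | (K : ℝ) * (n : ℝ) ^ (d - 1) ≤ Nb d n ω}) atTop (𝓝 0) := by
  have hafin : aw d ν ≠ ∞ := ne_top_of_lt hK
  set a : ℝ≥0 := (aw d ν).toNNReal with ha
  have haw : aw d ν = (a : ℝ≥0∞) := (ENNReal.coe_toNNReal hafin).symm
  have haK : a < K := by rw [haw] at hK; exact_mod_cast hK
  have ha0 : 0 < a := by
    have := aw_pos (d := d) ν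
    have h2 : (0 : ℝ≥0∞) < 2 * (d : ℝ≥0∞) := by
      have : (0 : ℝ≥0∞) < d := by exact_mod_cast (by omega : 0 < d)
      positivity
    rw [haw] at this
    exact_mod_cast h2.trans_le this
  rw [← ENNReal.tendsto_toReal_iff (fun n => measure_ne_top _ _) (by simp)]
  rw [Metric.tendsto_atTop]
  intro ε hε
  have hKa : (0 : ℝ) < K - a := by
    have : (a : ℝ) < K := by exact_mod_cast haK
    linarith
  set η : ℝ := ε * (K - a) / 4 with hη
  have hη0 : 0 < η := by positivity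
  -- choose K' < a with a - K' ≤ η
  set K' : ℝ≥0 := a - Real.toNNReal (min η ((a : ℝ) / 2)) with hK'
  have hmin0 : 0 < min η ((a : ℝ) / 2) := by
    have : (0 : ℝ) < a := by exact_mod_cast ha0
    positivity
  have hK'r : (K' : ℝ) = a - min η ((a : ℝ) / 2) := by
    have h0 : (0 : ℝ) ≤ a := a.2
    rw [hK', NNReal.coe_sub, Real.coe_toNNReal _ hmin0.le]
    rw [← NNReal.coe_le_coe, Real.coe_toNNReal _ hmin0.le]
    exact (min_le_right _ _).trans (by linarith)
  have hK'a : (K' : ℝ) < a := by rw [hK'r]; linarith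
  have hK'a2 : (a : ℝ) - K' ≤ η := by rw [hK'r]; linarith [min_le_left η ((a : ℝ) / 2)]
  have hK'K : K' ≤ K := by
    rw [← NNReal.coe_le_coe]; linarith
  have hlow := lower hd ν K' (by rw [haw]; exact_mod_cast hK'a)
  rw [← ENNReal.tendsto_toReal_iff (fun n => measure_ne_top _ _) (by simp)] at hlow
  have hlow2 := (hlow.const_mul (K' : ℝ))
  simp only [ENNReal.toReal_one, mul_one] at hlow2
  have hev : ∀ᶠ n : ℕ in atTop, (K' : ℝ) - η < (K' : ℝ) *
      (P d ν {ω | (K' : ℝ) * (n : ℝ) ^ (d - 1) < Nb d n ω}).toReal :=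
    hlow2.eventually (lt_mem_nhds (by linarith))
  obtain ⟨N, hN⟩ := eventually_atTop.1 (hev.and (eventually_gt_atTop 0))
  refine ⟨N, fun n hn => ?_⟩
  obtain ⟨h1, h2⟩ := hN n hn
  have h3 := two_level (d := d) ν n h2 K K' hK'K
  rw [haw] at h3
  have h4 := ENNReal.toReal_mono ENNReal.coe_ne_top h3
  rw [ENNReal.toReal_add (ENNReal.mul_ne_top ENNReal.coe_ne_top (measure_ne_top _ _))
    (ENNReal.mul_ne_top ENNReal.coe_ne_top (measure_ne_top _ _)), ENNReal.toReal_mul,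
    ENNReal.toReal_mul, ENNReal.coe_toReal, ENNReal.coe_toReal, ENNReal.coe_toReal,
    NNReal.coe_sub hK'K] at h4
  set q := (P d ν {ω | (K : ℝ) * (n : ℝ) ^ (d - 1) ≤ Nb d n ω}).toReal with hq
  have hq0 : 0 ≤ q := ENNReal.toReal_nonneg
  rw [ENNReal.toReal_zero, Real.dist_eq, sub_zero, abs_of_nonneg hq0]
  have h5 : (K - a) * q ≤ 2 * η := by nlinarith
  have h6 : (K - a) * q ≤ (K - a) * (ε / 2) := by rw [hη] at h5; nlinarith
  have h7 : q ≤ ε / 2 := le_of_mul_le_mul_left h6 hKa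
  linarith

end Pool.Agent.TH993.WP
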