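import Pool.Agent.TH993.WP.D

open MeasureTheory ProbabilityTheory Filter Topology Set
open scoped ENNReal NNReal

namespace Pool.Agent.TH993.WP

variable {d : ℕ}

/-- The sup-norm ball of radius `r` around `x` touches distance `r`. -/
def sph (x : V d) (r : ℕ) : Set (V d) := {z | ∃ j, |z j - x j| = (r : ℤ)}

/-- The one-arm probability: the origin is joined to sup-distance `r` inside the ball of
radius `r`. -/
noncomputable def arm (d : ℕ) (ν : Measure Bool) (r : ℕ) : ℝ≥0∞ :=
  P d ν {ω | ConnTo ω (ball 0 r) (sph 0 r) 0}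

theorem adj_le {x y : V d} (h : Adj x y) (j : Fin d) : |x j - y j| ≤ 1 := by
  have h1 : |x j - y j| ≤ ∑ i, |x i - y i| :=
    Finset.single_le_sum (f := fun i => |x i - y i|) (fun _ _ => abs_nonneg _) (Finset.mem_univ j)
  unfold Adj at h
  linarith

theorem exit {ω : Cfg d} {S : Set (V d)} {x y : V d} (r : ℕ) (h : Conn ω S x y) :
    (y ∈ ball x r ∧ Conn ω (S ∩ ball x r) x y) ∨ ConnTo ω (S ∩ ball x r) (sph x r) x := by
  induction h with
  | refl => exact Or.inl ⟨fun j => by simp, Relation.ReflTransGen.refl⟩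
  | @tail y z _ h2 ih =>
    rcases ih with ⟨hy, hc⟩ | ih
    · by_cases hz : z ∈ ball x r
      · exact Or.inl ⟨hz, hc.tail ⟨⟨h2.1, hy⟩, ⟨h2.2.1, hz⟩, h2.2.2⟩⟩
      · right
        simp only [ball, mem_ofPred_eq, not_forall, not_le] at hz
        obtain ⟨j, hj⟩ := hz
        refine ⟨y, ⟨j, ?_⟩, hc⟩
        have h1 := hy j
        have h3 := adj_le h2.2.2.1 j
        rw [abs_le] at h1 h3
        rcases lt_abs.1 hj with h4 | h4
        · have : y j - x j = r := by omega
          rw [this]; simp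
        · have : y j - x j = -r := by omega
          rw [this]; simp
    · exact Or.inr ih

theorem exit_far {ω : Cfg d} {S : Set (V d)} {x y : V d} (r : ℕ) (h : Conn ω S x y) (j : Fin d)
    (hj : (r : ℤ) ≤ |y j - x j|) : ConnTo ω (ball x r) (sph x r) x := by
  rcases exit r h with ⟨hy, hc⟩ | h
  · exact ⟨y, ⟨j, le_antisymm (hy j) hj⟩, conn_mono inter_subset_right hc⟩
  · exact connTo_mono inter_subset_right subset_rfl h

theorem arm_eq (ν : Measure Bool) [IsProbabilityMeasure ν] (x : V d) (r : ℕ) :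
    P d ν {ω | ConnTo ω (ball x r) (sph x r) x} = arm d ν r := by
  have h := shift_inv ν x (ball (0 : V d) r) (ball x r) (sph 0 r) (sph x r)
    (fun z => by simp [ball]) (fun z => by simp [sph]) 0
  rw [zero_add] at h
  exact h

theorem arm_anti (ν : Measure Bool) [IsProbabilityMeasure ν] {r s : ℕ} (h : r ≤ s) :
    arm d ν s ≤ arm d ν r := by
  refine measure_mono ?_
  rintro ω ⟨y, ⟨j, hj⟩, hc⟩
  refine exit_far r hc j ?_
  rw [hj]; exact_mod_cast h

theorem th_le_arm (ν : Measure Bool) [IsProbabilityMeasure ν] (i : Fin d) (b : Bool) (r : ℕ) :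
    th ν i b r ≤ arm d ν r := by
  rw [th, ← arm_eq ν (pt i b r) r]
  refine measure_mono ?_
  rintro ω ⟨y, hy, hc⟩
  refine exit_far r hc i ?_
  simp only [pl, mem_ofPred_eq] at hy
  rw [hy, pt, Pi.single_eq_same]
  cases b <;> simp [sg]

theorem arm_le_th (ν : Measure Bool) [IsProbabilityMeasure ν] (r : ℕ) :
    arm d ν r ≤ ∑ f : Fin d × Bool, th ν f.1 f.2 r := by
  have h1 : ∀ f : Fin d × Bool, th ν f.1 f.2 r =
      P d ν {ω | ConnTo ω (hs f.1 (sg f.2) (-(sg f.2 * r))) (pl f.1 (-(sg f.2 * r))) (0 : V d)} := by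
    intro f
    refine (th_eq ν f.1 f.2 r (0 : V d) _ ?_).symm
    simp only [Pi.zero_apply, zero_sub, neg_neg, sg_mul]
  simp only [h1]
  refine le_trans (measure_mono ?_) (measure_iUnion_fintype_le _ _)
  rintro ω ⟨y, ⟨j, hj⟩, hc⟩
  rw [mem_iUnion]
  simp only [Pi.zero_apply, sub_zero] at hj
  rcases (abs_eq (by positivity)).1 hj with h2 | h2
  · refine ⟨(j, true), y, ?_, conn_mono ?_ hc⟩
    · simp [pl, sg, h2]
    · intro z hz
      have := abs_le.1 (hz j)
      simp only [Pi.zero_apply, sub_zero] at this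
      simp only [hs, sg, mem_ofPred_eq, if_true]
      linarith
  · refine ⟨(j, false), y, ?_, conn_mono ?_ hc⟩
    · simp [pl, sg, h2]
    · intro z hz
      have := abs_le.1 (hz j)
      simp only [Pi.zero_apply, sub_zero] at this
      simp only [hs, sg, mem_ofPred_eq, Bool.false_eq_true, if_false]
      linarith

theorem adj_symm {x y : V d} (h : Adj x y) : Adj y x := by
  unfold Adj at *
  rw [← h]
  exact Finset.sum_congr rfl fun i _ => abs_sub_comm _ _

theorem step_symm {ω : Cfg d} {S : Set (V d)} {x y : V d} (h : Step ω S x y) : Step ω S y x :=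
  ⟨h.2.1, h.1, adj_symm h.2.2.1, by rw [Sym2.eq_swap]; exact h.2.2.2⟩

theorem conn_symm {ω : Cfg d} {S : Set (V d)} {x y : V d} (h : Conn ω S x y) : Conn ω S y x := by
  induction h with
  | refl => exact Relation.ReflTransGen.refl
  | tail _ h2 ih => exact Relation.ReflTransGen.head (step_symm h2) ih

/-- half of the distance -/
def hf (t : ℤ) : ℕ := (t.natAbs - 1) / 2

theorem pair_le (ν : Measure Bool) [IsProbabilityMeasure ν] (S : Set (V d)) (x y : V d)
    (j : Fin d) : P d ν {ω | Conn ω S x y} ≤ arm d ν (hf (y j - x j)) ^ 2 := by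
  by_cases h0 : y j - x j = 0
  · have h1 : arm d ν (hf (y j - x j)) = 1 := by
      rw [h0]
      have : {ω : Cfg d | ConnTo ω (ball 0 (hf 0)) (sph 0 (hf 0)) 0} = univ := by
        ext ω
        simp only [mem_ofPred_eq, mem_univ, iff_true]
        exact ⟨0, ⟨j, by simp [hf]⟩, Relation.ReflTransGen.refl⟩
      rw [arm, this, measure_univ]
    rw [h1, one_pow]
    exact prob_le_one
  · set r := hf (y j - x j) with hr
    have h2 : 2 * (r : ℤ) < |x j - y j| := by
      rw [hr, hf, abs_sub_comm, ← Int.natCast_natAbs]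
      have : 0 < (y j - x j).natAbs := Int.natAbs_pos.2 h0
      omega
    have h3 := indep_balls ν x y r j h2 univ univ (sph x r) (sph y r) x y
    simp only [Set.univ_inter] at h3
    rw [arm_eq, arm_eq, ← sq] at h3
    rw [← h3]
    refine measure_mono ?_
    intro ω hc
    refine ⟨exit_far r hc j ?_, exit_far r (conn_symm hc) j ?_⟩
    · rw [abs_sub_comm]; linarith
    · linarith

/-- number of pairs of points of the box joined inside the box -/
noncomputable def pairs (d n : ℕ) (ω : Cfg d) : ℕ :=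
  {p : V d × V d | p.1 ∈ bx d n ∧ p.2 ∈ bx d n ∧ Conn ω (bx d n : Set (V d)) p.1 p.2}.ncard

end Pool.Agent.TH993.WP
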