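import Pool.Agent.TH993.WP.G

open MeasureTheory ProbabilityTheory Filter Topology Set
open scoped ENNReal NNReal

namespace Pool.Agent.TH993.WP

theorem tsum_half (q : ℕ → ℝ≥0∞) : ∑' n : ℕ, q (n / 2) = ∑' n, q n + ∑' n, q n := by
  rw [← tsum_even_add_odd ENNReal.summable ENNReal.summable]
  congr 1
  · exact tsum_congr fun n => by rw [Nat.mul_div_cancel_left _ (by norm_num)]
  · exact tsum_congr fun n => by congr 1; omega

theorem tsum_hf (q : ℕ → ℝ≥0∞) (hq : ∀ r, q r ≤ 1) (h : ∑' r, q r ≠ ∞) :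
    ∑' t : ℤ, q (hf t) ≠ ∞ := by
  rw [tsum_of_nat_of_neg_add_one ENNReal.summable ENNReal.summable]
  have h1 : ∑' n : ℕ, q (hf (-((n : ℤ) + 1))) = ∑' n, q n + ∑' n, q n := by
    rw [← tsum_half]
    refine tsum_congr fun n => ?_
    congr 1
  have h2 : ∑' n : ℕ, q (hf (n : ℤ)) = q 0 + (∑' n, q n + ∑' n, q n) := by
    rw [tsum_eq_zero_add' ENNReal.summable, ← tsum_half]
    congr 1
  rw [h1, h2]
  have h0 : q 0 ≠ ∞ := ((hq 0).trans_lt (by simp)).ne
  simp [h, h0]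

theorem prod3 (k n : ℕ) (f0 f1 f2 : ℤ → ℝ≥0∞) :
    ∑ y ∈ bx (k + 3) n, f0 (y 0) * (f1 (y (Fin.succ 0)) * f2 (y (Fin.succ (Fin.succ 0)))) =
      (∑ t ∈ Finset.Ico 0 (n : ℤ), f0 t) * ((∑ t ∈ Finset.Ico 0 (n : ℤ), f1 t) *
        ((∑ t ∈ Finset.Ico 0 (n : ℤ), f2 t) * (n : ℝ≥0∞) ^ k)) := by
  have h := Finset.prod_univ_sum (fun _ : Fin (k + 3) => Finset.Ico 0 (n : ℤ))
    (Fin.cons f0 (Fin.cons f1 (Fin.cons f2 (fun (_ : Fin k) (_ : ℤ) => (1 : ℝ≥0∞)))) :
      Fin (k + 3) → ℤ → ℝ≥0∞)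
  simp only [Fin.prod_univ_succ, Fin.cons_zero, Fin.cons_succ, Finset.prod_const_one, mul_one,
    Finset.sum_const, Int.card_Ico, sub_zero, Int.toNat_natCast, nsmul_eq_mul,
    Finset.prod_const, Finset.card_univ, Fintype.card_fin] at h
  rw [h]
  rfl

theorem sum_shift_le (f : ℤ → ℝ≥0∞) (c : ℤ) (n : ℕ) :
    ∑ t ∈ Finset.Ico 0 (n : ℤ), f (t - c) ≤ ∑' t, f t := by
  refine (ENNReal.sum_le_tsum _).trans (le_of_eq ?_)
  exact (Equiv.subRight c).tsum_eq f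

open Classical in
theorem sum_pair (ν : Measure Bool) [IsProbabilityMeasure ν] (k n : ℕ) (s : Finset ℤ)
    (x : V (k + 3)) :
    ∑ y ∈ bx (k + 3) n, P (k + 3) ν {ω | Conn ω (bx (k + 3) n : Set (V (k + 3))) x y} ≤
      2 * (∑' t : ℤ, if t ∈ s then 0 else arm (k + 3) ν (hf t)) *
          (∑' t : ℤ, arm (k + 3) ν (hf t)) * (n : ℝ≥0∞) ^ (k + 1) +
        (s.card : ℝ≥0∞) ^ 2 * (∑' t : ℤ, arm (k + 3) ν (hf t)) * (n : ℝ≥0∞) ^ k := by
  set h : ℤ → ℝ≥0∞ := fun t => arm (k + 3) ν (hf t) with hh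
  set hc : ℤ → ℝ≥0∞ := fun t => if t ∈ s then 0 else h t with hhc
  set o : ℤ → ℝ≥0∞ := fun t => if t ∈ s then 1 else 0 with ho
  have hle1 : ∀ t, h t ≤ 1 := fun t => prob_le_one
  have hbound : ∀ y ∈ bx (k + 3) n,
      P (k + 3) ν {ω | Conn ω (bx (k + 3) n : Set (V (k + 3))) x y} ≤
      hc (y 0 - x 0) * (h (y (Fin.succ 0) - x (Fin.succ 0)) * 1) +
      h (y 0 - x 0) * (hc (y (Fin.succ 0) - x (Fin.succ 0)) * 1) +
      o (y 0 - x 0) * (o (y (Fin.succ 0) - x (Fin.succ 0)) *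
        h (y (Fin.succ (Fin.succ 0)) - x (Fin.succ (Fin.succ 0)))) := by
    intro y _
    have a0 := pair_le ν (bx (k + 3) n : Set (V (k + 3))) x y 0
    have a1 := pair_le ν (bx (k + 3) n : Set (V (k + 3))) x y (Fin.succ 0)
    have a2 := pair_le ν (bx (k + 3) n : Set (V (k + 3))) x y (Fin.succ (Fin.succ 0))
    set p := P (k + 3) ν {ω | Conn ω (bx (k + 3) n : Set (V (k + 3))) x y} with hp
    have b0 : p ≤ h (y 0 - x 0) * h (y (Fin.succ 0) - x (Fin.succ 0)) := by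
      rcases le_total (h (y 0 - x 0)) (h (y (Fin.succ 0) - x (Fin.succ 0))) with hl | hl
      · refine a0.trans ?_
        rw [sq]
        exact mul_le_mul' le_rfl hl
      · refine a1.trans ?_
        rw [sq]
        exact mul_le_mul' hl le_rfl
    have b2 : p ≤ h (y (Fin.succ (Fin.succ 0)) - x (Fin.succ (Fin.succ 0))) := by
      refine a2.trans ?_
      rw [sq]
      exact (mul_le_mul' (hle1 _) le_rfl).trans (le_of_eq (one_mul _))
    by_cases c0 : y 0 - x 0 ∈ s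
    · by_cases c1 : y (Fin.succ 0) - x (Fin.succ 0) ∈ s
      · refine b2.trans ?_
        simp only [ho, c0, c1, if_true, one_mul]
        exact le_add_self
      · refine b0.trans ?_
        simp only [hhc, c0, c1, if_true, if_false, mul_one, zero_mul, zero_add]
        exact le_self_add
    · refine b0.trans ?_
      simp only [hhc, c0, if_false, mul_one]
      rw [add_assoc]
      exact le_self_add
  refine (Finset.sum_le_sum hbound).trans ?_
  rw [Finset.sum_add_distrib, Finset.sum_add_distrib]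
  rw [prod3 k n (fun t => hc (t - x 0)) (fun t => h (t - x (Fin.succ 0))) (fun _ => 1),
    prod3 k n (fun t => h (t - x 0)) (fun t => hc (t - x (Fin.succ 0))) (fun _ => 1),
    prod3 k n (fun t => o (t - x 0)) (fun t => o (t - x (Fin.succ 0)))
      (fun t => h (t - x (Fin.succ (Fin.succ 0))))]
  have e1 := sum_shift_le hc (x 0) n
  have e2 := sum_shift_le hc (x (Fin.succ 0)) n
  have e3 := sum_shift_le h (x 0) n
  have e4 := sum_shift_le h (x (Fin.succ 0)) n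
  have e5 := sum_shift_le h (x (Fin.succ (Fin.succ 0))) n
  have e6 := sum_shift_le o (x 0) n
  have e7 := sum_shift_le o (x (Fin.succ 0)) n
  have ho' : ∑' t, o t = s.card := by
    rw [tsum_eq_sum (s := s) (fun t ht => by simp [ho, ht])]
    simp [ho]
  rw [ho'] at e6 e7
  have e8 : ∑ t ∈ Finset.Ico 0 (n : ℤ), (1 : ℝ≥0∞) = n := by simp
  rw [e8]
  calc _ ≤ (∑' t, hc t) * ((∑' t, h t) * ((n : ℝ≥0∞) * (n : ℝ≥0∞) ^ k)) +
        (∑' t, h t) * ((∑' t, hc t) * ((n : ℝ≥0∞) * (n : ℝ≥0∞) ^ k)) +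
        (s.card : ℝ≥0∞) * ((s.card : ℝ≥0∞) * ((∑' t, h t) * (n : ℝ≥0∞) ^ k)) := by
          gcongr
    _ = _ := by ring

end Pool.Agent.TH993.WP
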