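import Pool.Agent.TH993.WP.H

open MeasureTheory ProbabilityTheory Filter Topology Set
open scoped ENNReal NNReal

namespace Pool.Agent.TH993.WP

variable {d : ℕ}

/-- The free cluster of `x` in the box `B_n`. -/
def fcl (d n : ℕ) (ω : Cfg d) (x : V d) : Set (V d) :=
  {y | y ∈ bx d n ∧ Conn ω (bx d n : Set (V d)) x y}

open Classical in
theorem sq_le_pairs (n : ℕ) (ω : Cfg d) (x : V d) :
    ((fcl d n ω x).ncard : ℝ≥0∞) ^ 2 ≤ ∑ u ∈ bx d n, ∑ v ∈ bx d n,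
      ({ω | Conn ω (bx d n : Set (V d)) u v} : Set (Cfg d)).indicator 1 ω := by
  set C : Finset (V d) := (bx d n).filter (fun y => Conn ω (bx d n : Set (V d)) x y) with hC
  have h1 : (fcl d n ω x).ncard = C.card := by
    rw [← Set.ncard_coe_finset]
    congr 1
    ext y; simp [fcl, hC]
  have hCs : C ⊆ bx d n := Finset.filter_subset _ _
  rw [h1]
  calc ((C.card : ℝ≥0∞)) ^ 2 = ∑ u ∈ C, ∑ v ∈ C, (1 : ℝ≥0∞) := by simp [sq]
    _ ≤ ∑ u ∈ C, ∑ v ∈ C,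
        ({ω | Conn ω (bx d n : Set (V d)) u v} : Set (Cfg d)).indicator 1 ω := by
        refine Finset.sum_le_sum fun u hu => Finset.sum_le_sum fun v hv => ?_
        have hu' := (Finset.mem_filter.1 hu).2
        have hv' := (Finset.mem_filter.1 hv).2
        have : ω ∈ ({ω | Conn ω (bx d n : Set (V d)) u v} : Set (Cfg d)) :=
          Relation.ReflTransGen.trans (conn_symm hu') hv'
        rw [Set.indicator_of_mem this]; simp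
    _ ≤ _ := by
        refine (Finset.sum_le_sum_of_subset hCs).trans
          (Finset.sum_le_sum fun u _ => Finset.sum_le_sum_of_subset hCs)

theorem markov_pairs (ν : Measure Bool) [IsProbabilityMeasure ν] (n : ℕ) (m : ℝ≥0∞) :
    m ^ 2 * P d ν {ω | ∃ x ∈ bx d n, m ≤ ((fcl d n ω x).ncard : ℝ≥0∞)} ≤
      ∑ u ∈ bx d n, ∑ v ∈ bx d n, P d ν {ω | Conn ω (bx d n : Set (V d)) u v} := by
  have h1 : ∀ u v : V d, Measurable
      (({ω | Conn ω (bx d n : Set (V d)) u v} : Set (Cfg d)).indicator (1 : Cfg d → ℝ≥0∞)) :=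
    fun u v => measurable_one.indicator (meas_conn _ _ _)
  have h2 : ∫⁻ ω, ∑ u ∈ bx d n, ∑ v ∈ bx d n,
      ({ω | Conn ω (bx d n : Set (V d)) u v} : Set (Cfg d)).indicator 1 ω ∂(P d ν) =
      ∑ u ∈ bx d n, ∑ v ∈ bx d n, P d ν {ω | Conn ω (bx d n : Set (V d)) u v} := by
    rw [lintegral_finsetSum _ (fun u _ => Finset.measurable_sum _ fun v _ => h1 u v)]
    refine Finset.sum_congr rfl fun u _ => ?_
    rw [lintegral_finsetSum _ (fun v _ => h1 u v)]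
    refine Finset.sum_congr rfl fun v _ => ?_
    exact lintegral_indicator_one (meas_conn _ _ _)
  rw [← h2]
  refine le_trans (mul_le_mul' le_rfl (measure_mono ?_))
    (mul_meas_ge_le_lintegral (Finset.measurable_sum _ fun u _ =>
      Finset.measurable_sum _ fun v _ => h1 u v) (m ^ 2))
  rintro ω ⟨x, _, hx⟩
  exact le_trans (pow_le_pow_left' hx 2) (sq_le_pairs n ω x)

theorem card_bx (d n : ℕ) : (bx d n).card = n ^ d := by
  simp [bx]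

open Classical in
theorem tail_small (q : ℤ → ℝ≥0∞) (hq : ∑' t, q t ≠ ∞) (ε : ℝ≥0∞) (hε : 0 < ε) :
    ∃ s : Finset ℤ, ∑' t : ℤ, (if t ∈ s then 0 else q t) ≤ ε := by
  have h := ENNReal.tendsto_tsum_compl_atTop_zero hq
  obtain ⟨s, hs⟩ := (h.eventually (ge_mem_nhds hε)).exists
  refine ⟨s, le_trans (le_of_eq ?_) hs⟩
  rw [show (∑' b : {x // x ∉ s}, q b) = ∑' b : ({x | x ∉ s} : Set ℤ), q b from rfl,
    tsum_subtype]
  refine tsum_congr fun t => ?_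
  by_cases ht : t ∈ s <;> simp [ht]

open Classical in
theorem free_small (k : ℕ) (ν : Measure Bool) [IsProbabilityMeasure ν]
    (hsum : ∑' r, arm (k + 3) ν r ≠ ∞) (K : ℝ≥0) (hK : 0 < K) :
    Tendsto (fun n : ℕ => P (k + 3) ν {ω | ∃ x ∈ bx (k + 3) n,
      (K : ℝ≥0∞) * (n : ℝ≥0∞) ^ (k + 2) ≤ ((fcl (k + 3) n ω x).ncard : ℝ≥0∞)}) atTop (𝓝 0) := by
  set H : ℝ≥0∞ := ∑' t : ℤ, arm (k + 3) ν (hf t) with hH
  have hHfin : H ≠ ∞ := tsum_hf (arm (k + 3) ν) (fun r => prob_le_one) hsum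
  rw [ENNReal.tendsto_nhds_zero]
  intro ε hε
  have hK0 : (K : ℝ≥0∞) ≠ 0 := by exact_mod_cast hK.ne'
  -- choose the tail
  obtain ⟨δ, hδ0, hδ⟩ : ∃ δ : ℝ≥0∞, 0 < δ ∧ 2 * δ * H ≤ (K : ℝ≥0∞) ^ 2 * (ε / 2) := by
    by_cases he : ε = ∞
    · refine ⟨1, by simp, ?_⟩
      rw [he]
      have : (∞ : ℝ≥0∞) / 2 = ∞ := ENNReal.top_div_of_ne_top (by simp)
      rw [this, ENNReal.mul_top (pow_ne_zero 2 hK0)]
      exact le_top
    · refine ⟨(K : ℝ≥0∞) ^ 2 * (ε / 2) / (2 * (H + 1)), ?_, ?_⟩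
      · apply ENNReal.div_pos
        · exact mul_ne_zero (pow_ne_zero 2 hK0) (ENNReal.div_pos hε.ne' (by simp)).ne'
        · exact ENNReal.mul_ne_top (by simp) (by simp [hHfin])
      · have h2 : 2 * (H + 1) ≠ 0 := by simp
        have h3 : 2 * (H + 1) ≠ ∞ := ENNReal.mul_ne_top (by simp) (by simp [hHfin])
        calc 2 * ((K : ℝ≥0∞) ^ 2 * (ε / 2) / (2 * (H + 1))) * H
            ≤ 2 * ((K : ℝ≥0∞) ^ 2 * (ε / 2) / (2 * (H + 1))) * (H + 1) := by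
              gcongr; exact le_self_add
          _ = ((K : ℝ≥0∞) ^ 2 * (ε / 2) / (2 * (H + 1))) * (2 * (H + 1)) := by ring
          _ = (K : ℝ≥0∞) ^ 2 * (ε / 2) := ENNReal.div_mul_cancel h2 h3
          _ ≤ _ := le_rfl
  obtain ⟨s, hs⟩ := tail_small (fun t => arm (k + 3) ν (hf t)) hHfin δ hδ0
  -- the key inequality
  have key : ∀ n : ℕ, 0 < n → (K : ℝ≥0∞) ^ 2 * (n : ℝ≥0∞) *
      P (k + 3) ν {ω | ∃ x ∈ bx (k + 3) n,
        (K : ℝ≥0∞) * (n : ℝ≥0∞) ^ (k + 2) ≤ ((fcl (k + 3) n ω x).ncard : ℝ≥0∞)} ≤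
      (K : ℝ≥0∞) ^ 2 * (ε / 2) * n + (s.card : ℝ≥0∞) ^ 2 * H := by
    intro n hn
    have h1 := markov_pairs (d := k + 3) ν n ((K : ℝ≥0∞) * (n : ℝ≥0∞) ^ (k + 2))
    set p := P (k + 3) ν {ω | ∃ x ∈ bx (k + 3) n,
        (K : ℝ≥0∞) * (n : ℝ≥0∞) ^ (k + 2) ≤ ((fcl (k + 3) n ω x).ncard : ℝ≥0∞)} with hp
    have h2 : ∑ u ∈ bx (k + 3) n, ∑ v ∈ bx (k + 3) n,
        P (k + 3) ν {ω | Conn ω (bx (k + 3) n : Set (V (k + 3))) u v} ≤
        (n : ℝ≥0∞) ^ (k + 3) * (2 * δ * H * (n : ℝ≥0∞) ^ (k + 1) +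
          (s.card : ℝ≥0∞) ^ 2 * H * (n : ℝ≥0∞) ^ k) := by
      calc _ ≤ ∑ u ∈ bx (k + 3) n, (2 * δ * H * (n : ℝ≥0∞) ^ (k + 1) +
          (s.card : ℝ≥0∞) ^ 2 * H * (n : ℝ≥0∞) ^ k) := by
            refine Finset.sum_le_sum fun u _ => (sum_pair ν k n s u).trans ?_
            rw [← hH]
            gcongr
        _ = _ := by
            rw [Finset.sum_const, card_bx, nsmul_eq_mul]; push_cast; rfl
    have h3 := h1.trans h2
    have h4 : (n : ℝ≥0∞) ^ (2 * k + 3) * ((K : ℝ≥0∞) ^ 2 * (n : ℝ≥0∞) * p) ≤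
        (n : ℝ≥0∞) ^ (2 * k + 3) * (2 * δ * H * n + (s.card : ℝ≥0∞) ^ 2 * H) := by
      calc _ = ((K : ℝ≥0∞) * (n : ℝ≥0∞) ^ (k + 2)) ^ 2 * p := by ring
        _ ≤ _ := h3
        _ = _ := by ring
    have hn0 : (n : ℝ≥0∞) ^ (2 * k + 3) ≠ 0 := pow_ne_zero _ (by exact_mod_cast hn.ne')
    have hn1 : (n : ℝ≥0∞) ^ (2 * k + 3) ≠ ∞ := ENNReal.pow_ne_top (by simp)
    have h5 := (ENNReal.mul_le_mul_iff_right hn0 hn1).1 h4
    refine h5.trans ?_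
    gcongr
  -- conclude
  have hlim : Tendsto (fun n : ℕ => (s.card : ℝ≥0∞) ^ 2 * H / (K : ℝ≥0∞) ^ 2 / (n : ℝ≥0∞)) atTop
      (𝓝 0) := by
    have hc : (s.card : ℝ≥0∞) ^ 2 * H / (K : ℝ≥0∞) ^ 2 ≠ ∞ :=
      ENNReal.div_ne_top (ENNReal.mul_ne_top (by simp) hHfin) (pow_ne_zero 2 hK0)
    have := ENNReal.Tendsto.const_div (a := (s.card : ℝ≥0∞) ^ 2 * H / (K : ℝ≥0∞) ^ 2)
      ENNReal.tendsto_nat_nhds_top (Or.inr hc)
    simpa using this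
  have hε2 : 0 < ε / 2 := ENNReal.div_pos hε.ne' (by simp)
  filter_upwards [hlim.eventually (ge_mem_nhds hε2), eventually_gt_atTop 0] with n hn1 hn
  have hk := key n hn
  set p := P (k + 3) ν {ω | ∃ x ∈ bx (k + 3) n,
      (K : ℝ≥0∞) * (n : ℝ≥0∞) ^ (k + 2) ≤ ((fcl (k + 3) n ω x).ncard : ℝ≥0∞)} with hp
  have hn0 : (n : ℝ≥0∞) ≠ 0 := by exact_mod_cast hn.ne'
  have hK2 : (K : ℝ≥0∞) ^ 2 ≠ 0 := pow_ne_zero 2 hK0
  have hK2' : (K : ℝ≥0∞) ^ 2 ≠ ∞ := ENNReal.pow_ne_top ENNReal.coe_ne_top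
  have h7 : (s.card : ℝ≥0∞) ^ 2 * H ≤ (K : ℝ≥0∞) ^ 2 * n * (ε / 2) := by
    have h8 := (ENNReal.div_le_iff hn0 (by simp)).1 hn1
    have h9 := (ENNReal.div_le_iff hK2 hK2').1 h8
    refine h9.trans (le_of_eq ?_)
    ring
  have h10 : (K : ℝ≥0∞) ^ 2 * n * p ≤ (K : ℝ≥0∞) ^ 2 * n * ε := by
    calc _ ≤ (K : ℝ≥0∞) ^ 2 * (ε / 2) * n + (K : ℝ≥0∞) ^ 2 * n * (ε / 2) :=
          hk.trans (by gcongr)
      _ = (K : ℝ≥0∞) ^ 2 * n * (ε / 2 + ε / 2) := by ring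
      _ = _ := by rw [ENNReal.add_halves]
  exact (ENNReal.mul_le_mul_iff_right (mul_ne_zero hK2 hn0)
    (ENNReal.mul_ne_top hK2' (by simp))).1 h10

end Pool.Agent.TH993.WP
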