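import Pool.Agent.TH993.WP.F
import Pool.Agent.TH993.WP.I

open MeasureTheory ProbabilityTheory Filter Topology Set
open scoped ENNReal NNReal

namespace Pool.Agent.TH993.WP

variable {d : ℕ}

/-- One step of the wired box: an open bond inside `B_n`, or a jump between two points of
`∂B_n`. -/
def WStep (n : ℕ) (ω : Cfg d) (x y : V d) : Prop :=
  Step ω (bx d n : Set (V d)) x y ∨ (x ∈ bd d n ∧ y ∈ bd d n)

/-- The wired cluster of `x` in `B_n`. -/
def wcl (d n : ℕ) (ω : Cfg d) (x : V d) : Set (V d) :=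
  {y | y ∈ bx d n ∧ Relation.ReflTransGen (WStep n ω) x y}

/-- The size of the largest wired cluster. -/
noncomputable def maxW (d n : ℕ) (ω : Cfg d) : ℕ := (bx d n).sup (fun x => (wcl d n ω x).ncard)

theorem wcl_cases {n : ℕ} {ω : Cfg d} {x y : V d} (h : Relation.ReflTransGen (WStep n ω) x y) :
    (ConnTo ω (bx d n : Set (V d)) (bd d n) x ∧ ConnTo ω (bx d n : Set (V d)) (bd d n) y) ∨
      Conn ω (bx d n : Set (V d)) x y := by
  induction h with
  | refl => exact Or.inr Relation.ReflTransGen.refl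
  | @tail y z _ h2 ih =>
    rcases h2 with h2 | ⟨hy, hz⟩
    · rcases ih with ⟨hx, w, hw, hyw⟩ | ih
      · exact Or.inl ⟨hx, w, hw, Relation.ReflTransGen.head (step_symm h2) hyw⟩
      · exact Or.inr (ih.tail h2)
    · rcases ih with ⟨hx, _⟩ | ih
      · exact Or.inl ⟨hx, z, hz, Relation.ReflTransGen.refl⟩
      · exact Or.inl ⟨⟨y, hy, ih⟩, z, hz, Relation.ReflTransGen.refl⟩

theorem fin_bx (p : V d → Prop) (n : ℕ) : {y | y ∈ bx d n ∧ p y}.Finite :=
  (bx d n).finite_toSet.subset fun _ hx => hx.1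

theorem wcl_le (n : ℕ) (ω : Cfg d) (x : V d) :
    (wcl d n ω x).ncard ≤ max (Nb d n ω) ((fcl d n ω x).ncard) := by
  by_cases hx : ConnTo ω (bx d n : Set (V d)) (bd d n) x
  · refine le_trans (Set.ncard_le_ncard ?_ (fin_bx _ n)) (le_max_left _ _)
    rintro y ⟨hy, hc⟩
    refine ⟨hy, ?_⟩
    rcases wcl_cases hc with ⟨_, h⟩ | h
    · exact h
    · obtain ⟨w, hw, hxw⟩ := hx
      exact ⟨w, hw, Relation.ReflTransGen.trans (conn_symm h) hxw⟩
  · refine le_trans (Set.ncard_le_ncard ?_ (fin_bx _ n)) (le_max_right _ _)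
    rintro y ⟨hy, hc⟩
    refine ⟨hy, ?_⟩
    rcases wcl_cases hc with ⟨h, _⟩ | h
    · exact absurd h hx
    · exact h

theorem conn_wired {n : ℕ} {ω : Cfg d} {x y : V d} (h : Conn ω (bx d n : Set (V d)) x y) :
    Relation.ReflTransGen (WStep n ω) x y :=
  Relation.ReflTransGen.mono (r := Step ω (bx d n : Set (V d))) (p := WStep n ω)
    (fun _ _ hs => Or.inl hs) _ _ h

theorem zero_bx {n : ℕ} (hn : 0 < n) : (0 : V d) ∈ bx d n := by
  rw [bx, Fintype.mem_piFinset]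
  intro i
  simp [hn]

theorem Nb_le_maxW (hd : 0 < d) {n : ℕ} (hn : 0 < n) (ω : Cfg d) : Nb d n ω ≤ maxW d n ω := by
  have h0 : (0 : V d) ∈ bx d n := zero_bx hn
  have h1 : (0 : V d) ∈ bd d n := ⟨h0, ⟨0, hd⟩, Or.inl rfl⟩
  refine le_trans ?_ (Finset.le_sup (f := fun x => (wcl d n ω x).ncard) h0)
  refine Set.ncard_le_ncard ?_ (fin_bx _ n)
  rintro y ⟨hy, w, hw, hyw⟩
  refine ⟨hy, Relation.ReflTransGen.head (Or.inr ⟨h1, hw⟩) (conn_wired (conn_symm hyw))⟩

theorem maxW_le {n : ℕ} (hn : 0 < n) (ω : Cfg d) :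
    ∃ x ∈ bx d n, maxW d n ω ≤ max (Nb d n ω) ((fcl d n ω x).ncard) := by
  obtain ⟨x, hx, hm⟩ := Finset.exists_mem_eq_sup (bx d n) ⟨0, zero_bx hn⟩
    (fun x => (wcl d n ω x).ncard)
  exact ⟨x, hx, by rw [maxW, hm]; exact wcl_le n ω x⟩

/-- lower tail, wired version -/
theorem lowerW (hd : 2 ≤ d) (ν : Measure Bool) [IsProbabilityMeasure ν] (K : ℝ≥0)
    (hK : (K : ℝ≥0∞) < aw d ν) :
    Tendsto (fun n : ℕ => P d ν {ω | (maxW d n ω : ℝ) ≤ (K : ℝ) * (n : ℝ) ^ (d - 1)}) atTop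
      (𝓝 0) := by
  have h1 := lower hd ν K hK
  have h2 : Tendsto (fun n : ℕ => P d ν {ω | (K : ℝ) * (n : ℝ) ^ (d - 1) < Nb d n ω}ᶜ) atTop
      (𝓝 0) := by
    have h3 : ∀ n : ℕ, P d ν {ω | (K : ℝ) * (n : ℝ) ^ (d - 1) < Nb d n ω}ᶜ =
        1 - P d ν {ω | (K : ℝ) * (n : ℝ) ^ (d - 1) < Nb d n ω} := by
      intro n
      have mN : Measurable (fun ω : Cfg d => (Nb d n ω : ℝ)) :=
        measurable_from_top.comp (meas_Nb n)
      exact prob_compl_eq_one_sub (measurableSet_lt measurable_const mN)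
    simp only [h3]
    have := ENNReal.Tendsto.sub (tendsto_const_nhds (x := (1 : ℝ≥0∞))) h1 (Or.inl (by simp))
    simpa using this
  refine tendsto_of_tendsto_of_tendsto_of_le_of_le' tendsto_const_nhds h2
    (Eventually.of_forall fun n => bot_le) ?_
  filter_upwards [eventually_gt_atTop 0] with n hn
  refine measure_mono ?_
  intro ω hω
  rw [mem_compl_iff, mem_ofPred_eq, not_lt]
  rw [mem_ofPred_eq] at hω
  refine le_trans ?_ hω
  exact_mod_cast Nb_le_maxW (by omega) hn ω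

/-- upper tail, wired version -/
theorem upperW (hd : 3 ≤ d) (ν : Measure Bool) [IsProbabilityMeasure ν] (K : ℝ≥0)
    (hK : aw d ν < (K : ℝ≥0∞)) :
    Tendsto (fun n : ℕ => P d ν {ω | (K : ℝ) * (n : ℝ) ^ (d - 1) ≤ maxW d n ω}) atTop (𝓝 0) := by
  obtain ⟨k, rfl⟩ : ∃ k, d = k + 3 := ⟨d - 3, by omega⟩
  have hsum : ∑' r, arm (k + 3) ν r ≠ ∞ := by
    refine ne_top_of_le_ne_top (ne_top_of_lt hK) ?_
    calc ∑' r, arm (k + 3) ν r ≤ ∑' r, ∑ f : Fin (k + 3) × Bool, th ν f.1 f.2 r :=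
          ENNReal.tsum_le_tsum fun r => arm_le_th ν r
      _ = aw (k + 3) ν := by
          rw [aw, Summable.tsum_finsetSum (fun _ _ => ENNReal.summable)]
  have hK0 : 0 < K := by
    have : (0 : ℝ≥0∞) < K := bot_le.trans_lt hK
    exact_mod_cast this
  have h1 := upper_q (by omega) ν K hK
  have h2 := free_small k ν hsum K hK0
  have h3 := h1.add h2
  rw [add_zero] at h3
  refine tendsto_of_tendsto_of_tendsto_of_le_of_le' tendsto_const_nhds h3
    (Eventually.of_forall fun n => bot_le) ?_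
  filter_upwards [eventually_gt_atTop 0] with n hn
  refine le_trans (measure_mono ?_) (measure_union_le _ _)
  intro ω hω
  rw [mem_ofPred_eq] at hω
  obtain ⟨x, hx, hm⟩ := maxW_le hn ω
  rcases le_max_iff.1 hm with h | h
  · left
    rw [mem_ofPred_eq]
    exact hω.trans (by exact_mod_cast h)
  · right
    refine ⟨x, hx, ?_⟩
    have h5 : (K : ℝ) * (n : ℝ) ^ (k + 2) ≤ ((fcl (k + 3) n ω x).ncard : ℝ) :=
      hω.trans (by exact_mod_cast h)
    have h6 : K * (n : ℝ≥0) ^ (k + 2) ≤ ((fcl (k + 3) n ω x).ncard : ℝ≥0) := by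
      rw [← NNReal.coe_le_coe]; push_cast; exact h5
    exact_mod_cast h6

end Pool.Agent.TH993.WP
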